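import Pool.Agent.W110.RA.J
import Pool.Agent.W469.CV.MH

/-!
# Heights of the zeros
-/

set_option autoImplicit false
set_option linter.unusedSectionVars false

namespace Pool.Agent.W110.RA

open NumberField Module Polynomial Matrix Filter
open Pool.Agent.W242.IM

noncomputable section

theorem zp_reindex {R : Type*} [CommRing R] {κ κ' : Type*} [Fintype κ] [DecidableEq κ]
    [Fintype κ'] [DecidableEq κ'] (e : κ' ≃ κ) (A : Matrix κ κ R) :
    zp (A.submatrix e e) = zp A := by
  unfold zp
  rw [← Matrix.det_submatrix_equiv_self e]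
  congr 1
  ext i j
  by_cases h : i = j
  · subst h
    simp
  · have h' : e i ≠ e j := fun h'' => h (e.injective h'')
    simp [h, h']

variable {E : Type} [Field E] [NumberField E] {n : ℕ} {H : Matrix (Fin n) (Fin n) (𝓞 E)}

theorem zU_univ : zU H Finset.univ = zp H := by
  unfold zU
  let e : (Finset.univ : Finset (Fin n)) ≃ Fin n :=
    ⟨Subtype.val, fun x => ⟨x, Finset.mem_univ x⟩, fun x => rfl, fun x => rfl⟩
  exact zp_reindex e H

theorem ht_pos {L : Type} [Field L] [NumberField L] {a : L} (hi : IsIntegral ℤ a) (h0 : a ≠ 0)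
    (hr : ∀ k : ℕ, 0 < k → a ^ k ≠ 1) : 0 < ht a := by
  rcases (ht_nonneg a).lt_or_eq with h | h
  · exact h
  · exfalso
    have hn : (finrank ℚ L : ℝ) ≠ 0 := by exact_mod_cast (finrank_pos : 0 < finrank ℚ L).ne'
    unfold ht at h
    have h1 : ∑ σ : L →+* ℂ, Real.posLog ‖σ a‖ = 0 := by
      rcases div_eq_zero_iff.mp h.symm with h2 | h2
      · exact h2
      · exact absurd h2 hn
    rw [Finset.sum_eq_zero_iff_of_nonneg fun σ _ => Real.posLog_nonneg] at h1
    obtain ⟨k, hk, hk1⟩ := NumberField.Embeddings.pow_eq_one_of_norm_le_one L ℂ h0 hi (fun φ => by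
      have h2 := h1 φ (Finset.mem_univ φ)
      rw [Real.posLog_eq_zero_iff, abs_of_nonneg (norm_nonneg _)] at h2
      exact h2)
    exact hr k hk hk1

theorem ht_root {L : Type} [Field L] [NumberField L] [IsGalois ℚ L] {a y : L}
    (h : aeval y (minpoly ℚ a) = 0) : ht y = ht a := by
  obtain ⟨g, hg⟩ := minpoly.exists_algEquiv_of_root' (K := ℚ) (Algebra.IsAlgebraic.isAlgebraic a) h
  rw [← hg]
  exact ht_conj g a

/-- **The bound for numbers whose minimal polynomial is that of a Hermitian matrix.** -/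
theorem remond {c : ℝ} (hc : c * finrank ℚ E ≤ LL H Finset.univ ∨ LL H Finset.univ = 0)
    (hH : ∀ σ : E →+* ℂ, (H.map (emb σ)).IsHermitian) (σ : E →+* ℂ)
    (F : IntermediateField ℚ ℂ) (α : ℂ) (hα : ∀ k : ℕ, 0 < k → α ^ k ≠ 1) (Q : ℂ[X])
    (hQ : zp (H.map (emb σ)) = (minpoly F α).map (algebraMap F ℂ) * Q)
    (hQr : ∀ w : ℂ, Q.eval w = 0 → ∃ k : ℕ, 0 < k ∧ w ^ k = 1) (f : ℤ[X]) (hf : Irreducible f)
    (hfα : aeval α f = 0) :
    c / (minpoly F α).natDegree ≤
      Real.log (f.map (Int.castRingHom ℂ)).mahlerMeasure / f.natDegree := by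
  classical
  obtain ⟨L, _, _, _, _, hs⟩ := exists_split E ((zU H Finset.univ).map (algebraMap (𝓞 E) E))
  rw [Polynomial.map_map] at hs
  have hLL := LL_eq hH Finset.univ hs
  set P := (zU H Finset.univ).map ((algebraMap E L).comp (algebraMap (𝓞 E) E)) with hP
  have hmon : P.Monic := (zU_facts hH Finset.univ).1.map _
  have hR : zr H Finset.univ L = P.roots := rfl
  obtain ⟨ψ, hψ⟩ : ∃ ψ : L →+* ℂ, ψ.comp (algebraMap E L) = σ := by
    letI : Algebra E ℂ := σ.toAlgebra
    refine ⟨((IsAlgClosed.lift : L →ₐ[E] ℂ) : L →+* ℂ), ?_⟩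
    ext x
    exact (IsAlgClosed.lift : L →ₐ[E] ℂ).commutes x
  have hPψ : P.map ψ = zp (H.map (emb σ)) := by
    rw [hP, Polynomial.map_map, zU_univ, zp_map, ← hψ]
    rfl
  have hrep0 : zp (H.map (emb σ)) ≠ 0 := (zp_facts (hH σ)).1.ne_zero
  have hμ0 : (minpoly F α).map (algebraMap F ℂ) ≠ 0 := fun h => hrep0 (by rw [hQ, h, zero_mul])
  have hQ0 : Q ≠ 0 := fun h => hrep0 (by rw [hQ, h, mul_zero])
  have hroots : (zr H Finset.univ L).map ψ =
      ((minpoly F α).map (algebraMap F ℂ)).roots + Q.roots := by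
    rw [← roots_mul (mul_ne_zero hμ0 hQ0), ← hQ, ← hPψ, hR]
    exact (hs.roots_map ψ).symm
  have hαroot : ((minpoly F α).map (algebraMap F ℂ)).eval α = 0 := by
    rw [eval_map]
    exact minpoly.aeval F α
  obtain ⟨a, haR, haα⟩ : ∃ a ∈ zr H Finset.univ L, ψ a = α := by
    have h1 : α ∈ (zr H Finset.univ L).map ψ := by
      rw [hroots, Multiset.mem_add]
      left
      rw [mem_roots hμ0]
      exact hαroot
    obtain ⟨a, ha, h2⟩ := Multiset.mem_map.mp h1
    exact ⟨a, ha, h2⟩
  have haP : P.eval a = 0 := (mem_roots hmon.ne_zero).mp (hR ▸ haR)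
  have haE : IsIntegral (𝓞 E) a := by
    refine ⟨zU H Finset.univ, (zU_facts hH Finset.univ).1, ?_⟩
    rw [hP, eval_map] at haP
    exact haP
  have hai : IsIntegral ℤ a := isIntegral_trans (R := ℤ) (A := 𝓞 E) a haE
  have haroot : ∀ k : ℕ, 0 < k → a ^ k ≠ 1 := by
    intro k hk h
    apply hα k hk
    rw [← haα, ← map_pow, h, map_one]
  have ha0 : a ≠ 0 := by
    rintro rfl
    rw [hP, ← coeff_zero_eq_eval_zero, coeff_map, zU_univ] at haP
    have h1 : (zp H).coeff 0 = 1 := by
      rw [coeff_zero_eq_eval_zero]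
      unfold zp
      rw [← coe_evalRingHom, RingHom.map_det]
      have : (evalRingHom (0 : 𝓞 E)).mapMatrix
          (Matrix.scalar (Fin n) (X ^ 2 + 1 : (𝓞 E)[X]) - (X : (𝓞 E)[X]) • H.map C) = 1 := by
        ext i j
        by_cases h : i = j
        · subst h
          simp
        · simp [h]
      rw [this, Matrix.det_one]
    rw [h1, map_one] at haP
    exact one_ne_zero haP
  have hht := ht_pos hai ha0 haroot
  -- the heights of the zeros
  have hD : ((zr H Finset.univ L).map ht).sum ≤ (minpoly F α).natDegree * ht a := by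
    let hC : ℂ → ℝ := fun w => if h : ∃ y : L, ψ y = w then ht h.choose else 0
    have hCψ : ∀ y : L, hC (ψ y) = ht y := by
      intro y
      have h1 : ∃ y' : L, ψ y' = ψ y := ⟨y, rfl⟩
      simp only [hC]
      rw [dif_pos h1]
      congr 1
      exact ψ.injective h1.choose_spec
    have h1 : (zr H Finset.univ L).map ht = ((zr H Finset.univ L).map ψ).map hC := by
      rw [Multiset.map_map]
      exact Multiset.map_congr rfl fun y _ => (hCψ y).symm
    rw [h1, hroots, Multiset.map_add, Multiset.sum_add]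
    have h2 : (Q.roots.map hC).sum = 0 := by
      apply Multiset.sum_eq_zero
      intro x hx
      obtain ⟨w, hw, rfl⟩ := Multiset.mem_map.mp hx
      rw [mem_roots hQ0] at hw
      obtain ⟨k, hk, hk1⟩ := hQr w hw
      by_cases h3 : ∃ y : L, ψ y = w
      · obtain ⟨y, rfl⟩ := h3
        rw [hCψ]
        apply ht_zero_of_unity hk.ne'
        apply ψ.injective
        rw [map_pow, hk1, map_one]
      · simp only [hC]
        rw [dif_neg h3]
    have h3 : ∀ x ∈ (((minpoly F α).map (algebraMap F ℂ)).roots.map hC), x ≤ ht a := by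
      intro x hx
      obtain ⟨w, hw, rfl⟩ := Multiset.mem_map.mp hx
      have hw' : w ∈ (zr H Finset.univ L).map ψ := by
        rw [hroots, Multiset.mem_add]
        exact Or.inl hw
      obtain ⟨y, hy, rfl⟩ := Multiset.mem_map.mp hw'
      rw [hCψ]
      apply le_of_eq
      apply ht_root
      rw [mem_roots hμ0, IsRoot.def, eval_map] at hw
      have h4 : minpoly F α ∣ (minpoly ℚ α).map (algebraMap ℚ F) := minpoly.dvd_map_of_isScalarTower ℚ F α
      have h5 : aeval (ψ y) (minpoly ℚ α) = 0 := by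
        have h6 : eval₂ (algebraMap F ℂ) (ψ y) ((minpoly ℚ α).map (algebraMap ℚ F)) = 0 := by
          obtain ⟨r, hr⟩ := h4
          rw [hr, eval₂_mul, hw, zero_mul]
        rw [eval₂_map] at h6
        have h8 : algebraMap ℚ ℂ = (algebraMap F ℂ).comp (algebraMap ℚ F) :=
          Subsingleton.elim _ _
        rw [aeval_def, h8]
        exact h6
      have h7 : minpoly ℚ α = minpoly ℚ a := by
        rw [← haα]
        let ψ' : L →ₐ[ℚ] ℂ := RingHom.toRatAlgHom ψ
        exact minpoly.algHom_eq ψ' ψ'.injective a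
      rw [h7] at h5
      apply ψ.injective
      rw [map_zero, ← h5]
      let ψ' : L →ₐ[ℚ] ℂ := RingHom.toRatAlgHom ψ
      exact (aeval_algHom_apply ψ' y (minpoly ℚ a)).symm
    have h4 := Multiset.sum_le_card_nsmul _ _ h3
    rw [Multiset.card_map, nsmul_eq_mul] at h4
    have h5 : (Multiset.card ((minpoly F α).map (algebraMap F ℂ)).roots : ℝ) ≤
        (minpoly F α).natDegree := by
      have h6 := card_roots' ((minpoly F α).map (algebraMap F ℂ))
      rw [natDegree_map] at h6
      exact_mod_cast h6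
    have h6 := mul_le_mul_of_nonneg_right h5 hht.le
    linarith
  have hn : (0 : ℝ) < finrank ℚ E := by exact_mod_cast (finrank_pos : 0 < finrank ℚ E)
  have hpos : 0 < LL H Finset.univ := by
    rw [hLL]
    apply mul_pos hn
    have h1 := sum_le_of_subset (zr H Finset.univ L) {a} (by
      intro x hx
      rw [Finset.mem_singleton] at hx
      rw [hx, Multiset.mem_toFinset]
      exact haR) ht ht_nonneg
    rw [Finset.sum_singleton] at h1
    linarith
  have hcD : c ≤ (minpoly F α).natDegree * ht a := by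
    rcases hc with hc | hc
    · rw [hLL, mul_comm c] at hc
      exact (le_of_mul_le_mul_left hc hn).trans hD
    · rw [hc] at hpos
      exact absurd hpos (lt_irrefl 0)
  have hDpos : (0 : ℝ) < (minpoly F α).natDegree := by
    have h1 : 0 < (minpoly F α).natDegree := by
      rcases Nat.eq_zero_or_pos (minpoly F α).natDegree with h | h
      · exfalso
        rw [natDegree_eq_zero] at h
        obtain ⟨r, hr⟩ := h
        rw [← hr, Polynomial.map_C, eval_C] at hαroot
        apply hμ0
        rw [← hr, Polynomial.map_C, hαroot, C_0]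
      · exact h
    exact_mod_cast h1
  have h1 : c / (minpoly F α).natDegree ≤ ht a := by
    rw [div_le_iff₀ hDpos, mul_comm]
    exact hcD
  refine h1.trans ?_
  have hfa : aeval a f = 0 := by
    apply ψ.injective
    rw [map_zero, ← hfα, ← haα]
    rw [aeval_def, hom_eval₂, aeval_def]
    congr 1
    exact RingHom.ext_int _ _
  have hfd : 0 < f.natDegree := by
    rcases Nat.eq_zero_or_pos f.natDegree with h | h
    · exfalso
      rw [natDegree_eq_zero] at h
      obtain ⟨r, hr⟩ := h
      rw [← hr, aeval_C] at hfa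
      have h2 : r = 0 := by simpa using hfa
      rw [← hr, h2, C_0] at hf
      exact not_irreducible_zero hf
    · exact h
  have h2 := Pool.Agent.W469.CV.MH.t L a f hf hfd hfa
  have h3 : Pool.Agent.H813R3.Voj.mahler f = (f.map (Int.castRingHom ℂ)).mahlerMeasure := rfl
  rw [h3] at h2
  have h4 := ht_eq (K := L) (L := L) hai
  rw [Algebra.algebraMap_self, RingHom.id_apply] at h4
  rw [← h4]
  have hLn : (0 : ℝ) < finrank ℚ L := by exact_mod_cast (finrank_pos : 0 < finrank ℚ L)
  rw [div_le_iff₀ hLn, mul_comm]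
  exact h2

end

end Pool.Agent.W110.RA
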