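import Mathlib

/-!
# Orbits and heights in a Galois number field
-/

set_option autoImplicit false
set_option linter.unusedSectionVars false

namespace Pool.Agent.W110.RA

open NumberField Module Polynomial

noncomputable section

variable {L : Type} [Field L] [NumberField L]

/-- the height of an algebraic integer -/
def ht (x : L) : ℝ := (∑ σ : L →+* ℂ, Real.posLog ‖σ x‖) / finrank ℚ L

theorem ht_nonneg (x : L) : 0 ≤ ht x :=
  div_nonneg (Finset.sum_nonneg fun _ _ => Real.posLog_nonneg) (Nat.cast_nonneg _)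

theorem ht_conj (g : Gal(L/ℚ)) (x : L) : ht (g x) = ht x := by
  unfold ht
  congr 1
  refine Fintype.sum_bijective (fun σ : L →+* ℂ => σ.comp (g : L →+* L)) ?_ _ _ fun σ => rfl
  constructor
  · intro σ τ h
    ext y
    have h1 := RingHom.congr_fun h (g.symm y)
    simpa using h1
  · intro σ
    refine ⟨σ.comp (g.symm : L →+* L), ?_⟩
    ext y
    simp

theorem ht_pow (x : L) (k : ℕ) : ht (x ^ k) = k * ht x := by
  unfold ht
  rw [← mul_div_assoc, Finset.mul_sum]
  congr 1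
  refine Finset.sum_congr rfl fun σ _ => ?_
  rw [map_pow, norm_pow, Real.posLog_pow]

theorem norm_unity {r : L} {k : ℕ} (hk : k ≠ 0) (hr : r ^ k = 1) (σ : L →+* ℂ) : ‖σ r‖ = 1 := by
  have h1 : (σ r) ^ k = 1 := by rw [← map_pow, hr, map_one]
  exact Complex.norm_eq_one_of_pow_eq_one h1 hk

theorem ht_unity {r : L} {k : ℕ} (hk : k ≠ 0) (hr : r ^ k = 1) (x : L) : ht (r * x) = ht x := by
  unfold ht
  congr 1
  refine Finset.sum_congr rfl fun σ _ => ?_
  rw [map_mul, norm_mul, norm_unity hk hr, one_mul]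

theorem ht_sum (x : L) : ∑ σ : L →+* ℂ, Real.posLog ‖σ x‖ = finrank ℚ L * ht x := by
  unfold ht
  have : (finrank ℚ L : ℝ) ≠ 0 := by exact_mod_cast (finrank_pos : 0 < finrank ℚ L).ne'
  field_simp

/-- the logarithm of the norm -/
theorem log_norm_nonneg {x : L} (hx : IsIntegral ℤ x) (h0 : x ≠ 0) :
    0 ≤ ∑ σ : L →+* ℂ, Real.log ‖σ x‖ := by
  have h1 := Algebra.norm_eq_prod_embeddings ℚ ℂ x
  have h2 : IsIntegral ℤ (Algebra.norm ℚ x) := Algebra.isIntegral_norm ℚ hx
  obtain ⟨n, hn⟩ := IsIntegrallyClosed.isIntegral_iff.mp h2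
  have h3 : n ≠ 0 := by
    rintro rfl
    rw [map_zero] at hn
    exact h0 (Algebra.norm_eq_zero_iff.mp hn.symm)
  have h4 : (1 : ℝ) ≤ ∏ σ : L →+* ℂ, ‖σ x‖ := by
    have h5 : ∏ σ : L →+* ℂ, ‖σ x‖ = ‖(algebraMap ℚ ℂ) (Algebra.norm ℚ x)‖ := by
      rw [h1, norm_prod]
      refine Fintype.prod_equiv (RingHom.equivRatAlgHom L ℂ) _ _ fun σ => ?_
      rfl
    rw [h5, ← hn]
    have h6 : (algebraMap ℚ ℂ) ((algebraMap ℤ ℚ) n) = ((n : ℤ) : ℂ) := by simp
    rw [h6, Complex.norm_intCast]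
    exact_mod_cast Int.one_le_abs h3
  rw [← Real.log_prod (fun σ _ => by
    rw [norm_ne_zero_iff]
    exact (map_ne_zero σ).mpr h0)]
  exact Real.log_nonneg h4

variable [IsGalois ℚ L]

/-- the automorphisms fixing `z` -/
def fixG (z : L) : Finset (Gal(L/ℚ)) := by
  classical
  exact Finset.univ.filter fun g : Gal(L/ℚ) => g z = z

theorem mem_fixG {z : L} {g : Gal(L/ℚ)} : g ∈ fixG z ↔ g z = z := by
  classical
  unfold fixG
  simp

/-- the conjugates of `x` over `ℚ(z)` -/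
def orb (z x : L) : Finset L := by
  classical
  exact (fixG z).image fun g => g x

theorem mem_orb {z x y : L} : y ∈ orb z x ↔ ∃ g : Gal(L/ℚ), g z = z ∧ g x = y := by
  classical
  unfold orb
  rw [Finset.mem_image]
  constructor
  · rintro ⟨g, hg, h⟩
    exact ⟨g, mem_fixG.mp hg, h⟩
  · rintro ⟨g, hg, h⟩
    exact ⟨g, mem_fixG.mpr hg, h⟩

theorem self_mem_orb (z x : L) : x ∈ orb z x := mem_orb.mpr ⟨1, rfl, rfl⟩

theorem orb_pos (z x : L) : 0 < (orb z x).card := Finset.card_pos.mpr ⟨x, self_mem_orb z x⟩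

theorem orb_smul {z x y : L} (hy : y ∈ orb z x) {g : Gal(L/ℚ)} (hg : g z = z) :
    g y ∈ orb z x := by
  obtain ⟨h, hh, rfl⟩ := mem_orb.mp hy
  exact mem_orb.mpr ⟨g * h, by rw [AlgEquiv.mul_apply, hh, hg], rfl⟩

/-- an integer fixed by the automorphisms fixing a root of unity `z` is a polynomial in `z` -/
theorem fixed_int {m : ℕ} (hm : m ≠ 0) {z : L} (hz : IsPrimitiveRoot z m) {x : L}
    (hx : IsIntegral ℤ x) (hfix : ∀ g : Gal(L/ℚ), g z = z → g x = x) :
    ∃ P : ℤ[X], aeval z P = x := by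
  have : NeZero m := ⟨hm⟩
  set E := IntermediateField.adjoin ℚ {z} with hE
  have hxE : x ∈ E := by
    rw [← IsGalois.fixedField_fixingSubgroup E, IntermediateField.mem_fixedField_iff]
    intro g hg
    apply hfix
    rw [IntermediateField.mem_fixingSubgroup_iff] at hg
    exact hg z (IntermediateField.mem_adjoin_simple_self ℚ z)
  have hcyc : IsCyclotomicExtension {m} ℚ E := hz.intermediateField_adjoin_isCyclotomicExtension ℚ
  have hzE : z ∈ E := IntermediateField.mem_adjoin_simple_self ℚ z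
  have hz' : IsPrimitiveRoot (⟨z, hzE⟩ : E) m := by
    apply IsPrimitiveRoot.of_map_of_injective (f := algebraMap E L) _ (algebraMap E L).injective
    exact hz
  have hx' : IsIntegral ℤ (⟨x, hxE⟩ : E) :=
    (isIntegral_algebraMap_iff (algebraMap E L).injective).mp hx
  have := IsCyclotomicExtension.Rat.isIntegralClosure_adjoin_singleton hz'
  obtain ⟨y, hy⟩ := (IsIntegralClosure.isIntegral_iff (A := Algebra.adjoin ℤ {(⟨z, hzE⟩ : E)})).mp hx'
  have hy2 : (y : E) ∈ (aeval (R := ℤ) (⟨z, hzE⟩ : E)).range := by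
    rw [← Algebra.adjoin_singleton_eq_range_aeval]
    exact y.2
  obtain ⟨P, hP⟩ := hy2
  refine ⟨P, ?_⟩
  have h1 : (aeval (⟨z, hzE⟩ : E) P : E) = ⟨x, hxE⟩ := hP.trans hy
  have h2 := congrArg (algebraMap E L) h1
  rw [← aeval_algebraMap_apply] at h2
  exact h2

/-- Galois conjugates of roots of unity -/
theorem exists_conj {m : ℕ} (hm : m ≠ 0) {z : L} (hz : IsPrimitiveRoot z m) {u : ℕ}
    (hu : u.Coprime m) : ∃ g : Gal(L/ℚ), g z = z ^ u := by
  have h1 : minpoly ℚ z = minpoly ℚ (z ^ u) := by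
    rw [← cyclotomic_eq_minpoly_rat hz (Nat.pos_of_ne_zero hm),
      ← cyclotomic_eq_minpoly_rat (hz.pow_of_coprime u hu) (Nat.pos_of_ne_zero hm)]
  obtain ⟨g, hg⟩ := (Normal.minpoly_eq_iff_mem_orbit (x := z ^ u) (y := z) L).mp h1.symm
  exact ⟨g, hg⟩

end

end Pool.Agent.W110.RA
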