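import Pool.Agent.W110.RA.A

/-!
# Congruences modulo two in cyclotomic towers
-/

set_option autoImplicit false
set_option linter.unusedSectionVars false

namespace Pool.Agent.W110.RA

open NumberField Module Polynomial

noncomputable section

/-! ### Powers of two in rings in which `2 = 0` -/

theorem add_pow_two_pow {R : Type*} [CommRing R] (h2 : (2 : R) = 0) (j : ℕ) (x y : R) :
    (x + y) ^ 2 ^ j = x ^ 2 ^ j + y ^ 2 ^ j := by
  induction j with
  | zero => simp
  | succ j ih =>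
    rw [pow_succ, pow_mul, ih, pow_mul, pow_mul]
    linear_combination (x ^ 2 ^ j * y ^ 2 ^ j) * h2

/-- the power map -/
def fr {R : Type*} [CommRing R] (h2 : (2 : R) = 0) (j : ℕ) : R →+* R where
  toFun x := x ^ 2 ^ j
  map_one' := one_pow _
  map_mul' x y := mul_pow x y _
  map_zero' := zero_pow (by positivity)
  map_add' x y := add_pow_two_pow h2 j x y

theorem fr_apply {R : Type*} [CommRing R] (h2 : (2 : R) = 0) (j : ℕ) (x : R) :
    fr h2 j x = x ^ 2 ^ j := rfl

variable {L : Type} [Field L] [NumberField L]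

/-- the integers modulo two -/
abbrev R2 (L : Type) [Field L] [NumberField L] : Type := 𝓞 L ⧸ Ideal.span {(2 : 𝓞 L)}

/-- reduction modulo two -/
abbrev red (L : Type) [Field L] [NumberField L] : 𝓞 L →+* R2 L :=
  Ideal.Quotient.mk (Ideal.span {(2 : 𝓞 L)})

theorem two_zero : (2 : R2 L) = 0 := by
  have h1 : red L 2 = 0 := Ideal.Quotient.eq_zero_iff_mem.mpr (Ideal.mem_span_singleton_self _)
  rw [← h1]
  exact (map_ofNat (red L) 2).symm

theorem dvd_of_red {x : 𝓞 L} (h : red L x = 0) : ∃ y : 𝓞 L, x = 2 * y := by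
  have h1 := Ideal.Quotient.eq_zero_iff_mem.mp h
  rw [Ideal.mem_span_singleton] at h1
  exact h1

/-- the action on the integers -/
def act (g : Gal(L/ℚ)) : 𝓞 L →+* 𝓞 L := RingOfIntegers.mapRingHom (g : L →+* L)

theorem act_coe (g : Gal(L/ℚ)) (x : 𝓞 L) : ((act g x : 𝓞 L) : L) = g x := rfl

theorem act_mul (g h : Gal(L/ℚ)) (x : 𝓞 L) : act (g * h) x = act g (act h x) := rfl

theorem act_inj (g : Gal(L/ℚ)) {x y : 𝓞 L} (h : act g x = act g y) : x = y := by
  have h1 := congrArg (fun z : 𝓞 L => (z : L)) h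
  simp only [act_coe] at h1
  exact RingOfIntegers.ext (g.injective h1)

variable [IsGalois ℚ L]

/-- the conjugates of an integer over `ℚ(z)` -/
def orbO (z : L) (x : 𝓞 L) : Finset (𝓞 L) := by
  classical
  exact (fixG z).image fun g => act g x

theorem mem_orbO {z : L} {x y : 𝓞 L} : y ∈ orbO z x ↔ ∃ g : Gal(L/ℚ), g z = z ∧ act g x = y := by
  classical
  unfold orbO
  rw [Finset.mem_image]
  constructor
  · rintro ⟨g, hg, h⟩
    exact ⟨g, mem_fixG.mp hg, h⟩
  · rintro ⟨g, hg, h⟩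
    exact ⟨g, mem_fixG.mpr hg, h⟩

theorem orbO_card (z : L) (x : 𝓞 L) : (orbO z x).card = (orb z (x : L)).card := by
  classical
  have h1 : orb z (x : L) = (orbO z x).image (fun y : 𝓞 L => (y : L)) := by
    ext y
    rw [mem_orb, Finset.mem_image]
    constructor
    · rintro ⟨g, hg, rfl⟩
      exact ⟨act g x, mem_orbO.mpr ⟨g, hg, rfl⟩, rfl⟩
    · rintro ⟨w, hw, rfl⟩
      obtain ⟨g, hg, rfl⟩ := mem_orbO.mp hw
      exact ⟨g, hg, rfl⟩
  rw [h1, Finset.card_image_of_injective _ (fun a b h => RingOfIntegers.ext h)]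

/-- the minimal polynomial over `ℚ(z)` -/
def mpO (z : L) (x : 𝓞 L) : (𝓞 L)[X] := ∏ y ∈ orbO z x, (X - C y)

theorem mpO_fix {z : L} {x : 𝓞 L} {g : Gal(L/ℚ)} (hg : g z = z) :
    (mpO z x).map (act g) = mpO z x := by
  classical
  unfold mpO
  rw [Polynomial.map_prod]
  simp only [Polynomial.map_sub, Polynomial.map_X, Polynomial.map_C]
  refine Finset.prod_bij (fun y _ => act g y) ?_ ?_ ?_ ?_
  · intro y hy
    obtain ⟨h, hh, rfl⟩ := mem_orbO.mp hy
    exact mem_orbO.mpr ⟨g * h, by rw [AlgEquiv.mul_apply, hh, hg], rfl⟩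
  · intro a _ b _ h
    exact act_inj g h
  · intro y hy
    obtain ⟨h, hh, rfl⟩ := mem_orbO.mp hy
    refine ⟨act (g⁻¹ * h) x, mem_orbO.mpr ⟨g⁻¹ * h, ?_, rfl⟩, ?_⟩
    · rw [AlgEquiv.mul_apply, hh]
      have h1 : g⁻¹ (g z) = z := by
        rw [← AlgEquiv.mul_apply, inv_mul_cancel, AlgEquiv.one_apply]
      rw [hg] at h1
      exact h1
    · rw [← act_mul, mul_inv_cancel_left]
  · intro y _
    rfl

theorem coeff_congr {m : ℕ} (hm : m ≠ 0) {z : L} (hz : IsPrimitiveRoot z m) (x : 𝓞 L) (j k : ℕ)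
    {g : Gal(L/ℚ)} (hg : g (z ^ 2 ^ j) = z ^ 2 ^ j) :
    fr two_zero j (red L (act g ((mpO z x).coeff k))) =
      fr two_zero j (red L ((mpO z x).coeff k)) := by
  set a : 𝓞 L := (mpO z x).coeff k with ha
  obtain ⟨P, hP⟩ := fixed_int hm hz (x := (a : L)) a.isIntegral_coe (fun h hh => by
    rw [← act_coe]
    congr 1
    rw [ha, ← coeff_map, mpO_fix hh])
  have hzi : IsIntegral ℤ z := hz.isIntegral (Nat.pos_of_ne_zero hm)
  set zO : 𝓞 L := ⟨z, hzi⟩ with hzO
  have h1 : aeval zO P = a := by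
    apply RingOfIntegers.ext
    rw [← hP]
    have := aeval_algebraMap_apply L zO P
    exact this.symm
  have h2 : act g a = aeval (act g zO) P := by
    rw [← h1, aeval_def, hom_eval₂, aeval_def]
    congr 1
    exact RingHom.ext_int _ _
  have h3 : ∀ w : 𝓞 L, fr two_zero j (red L (aeval w P)) =
      eval₂ (Int.castRingHom (R2 L)) (red L (w ^ 2 ^ j)) P := by
    intro w
    rw [aeval_def, hom_eval₂, hom_eval₂, map_pow, fr_apply]
    congr 1
    exact RingHom.ext_int _ _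
  rw [h2, ← h1, h3, h3]
  congr 2
  apply RingOfIntegers.ext
  have e1 : ∀ w : 𝓞 L, ((w ^ 2 ^ j : 𝓞 L) : L) = (w : L) ^ 2 ^ j :=
    fun w => map_pow (algebraMap (𝓞 L) L) w _
  rw [e1, e1, act_coe]
  have h4 : (zO : L) = z := rfl
  rw [h4, ← map_pow, hg]

/-- the congruence of conjugates -/
theorem prod_congr_mod {m : ℕ} (hm : m ≠ 0) {z : L} (hz : IsPrimitiveRoot z m) (x : 𝓞 L) (j : ℕ)
    {g g' : Gal(L/ℚ)} (hg : g (z ^ 2 ^ j) = z ^ 2 ^ j) (hg' : g' (z ^ 2 ^ j) = z ^ 2 ^ j)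
    {y : 𝓞 L} (hy : y ∈ orbO z x) :
    ∃ w : 𝓞 L, ∏ y' ∈ orbO z x, ((act g y) ^ 2 ^ j - (act g' y') ^ 2 ^ j) = 2 * w := by
  apply dvd_of_red
  have key : ∀ h : Gal(L/ℚ), h (z ^ 2 ^ j) = z ^ 2 ^ j →
      ((mpO z x).map (act h)).map ((fr two_zero j).comp (red L)) =
        (mpO z x).map ((fr two_zero j).comp (red L)) := by
    intro h hh
    ext k
    rw [coeff_map, coeff_map, coeff_map, RingHom.comp_apply, RingHom.comp_apply]
    exact coeff_congr hm hz x j k hh
  have hev : ∀ h : Gal(L/ℚ), ∀ t : R2 L,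
      (((mpO z x).map (act h)).map ((fr two_zero j).comp (red L))).eval t =
        ∏ y' ∈ orbO z x, (t - red L ((act h y') ^ 2 ^ j)) := by
    intro h t
    unfold mpO
    rw [Polynomial.map_prod, Polynomial.map_prod, eval_prod]
    refine Finset.prod_congr rfl fun y' _ => ?_
    simp only [Polynomial.map_sub, Polynomial.map_X, Polynomial.map_C, eval_sub, eval_X, eval_C,
      RingHom.comp_apply, fr_apply, map_pow, eval_pow]
  rw [map_prod]
  simp only [map_sub]
  rw [← hev g', key g' hg', ← key g hg, hev g]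
  exact Finset.prod_eq_zero hy (sub_self _)

end

end Pool.Agent.W110.RA
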