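import Pool.Agent.W110.RA.B
import Pool.Agent.TH53.HR3

/-!
# The lower bound in the wildly ramified case
-/

set_option autoImplicit false
set_option linter.unusedSectionVars false

namespace Pool.Agent.W110.RA

open NumberField Module Polynomial

noncomputable section

theorem disc_fin {N : ℕ} (v : Fin N → ℂ) :
    ∏ i, ∏ j ∈ ({i}ᶜ : Finset (Fin N)), ‖v i - v j‖ ≤
      (N : ℝ) ^ N * ∏ i, (max 1 ‖v i‖) ^ (2 * (N - 1)) := by
  refine le_trans (le_of_eq ?_) (Pool.Agent.TH53.HR.vandermonde_le v)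
  have h1 := Finset.prod_prod_Ioi_mul_eq_prod_prod_off_diag (fun i j : Fin N => ‖v j - v i‖)
  rw [← h1, Matrix.det_vandermonde, norm_prod, ← Finset.prod_pow]
  refine Finset.prod_congr rfl fun i _ => ?_
  rw [norm_prod, ← Finset.prod_pow]
  refine Finset.prod_congr rfl fun j _ => ?_
  rw [norm_sub_rev (v i) (v j), sq]

theorem disc_gen {ι : Type} [Fintype ι] [DecidableEq ι] (v : ι → ℂ) :
    ∏ i, ∏ j ∈ ({i}ᶜ : Finset ι), ‖v i - v j‖ ≤
      (Fintype.card ι : ℝ) ^ Fintype.card ι * ∏ i, (max 1 ‖v i‖) ^ (2 * (Fintype.card ι - 1)) := by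
  set e := Fintype.equivFin ι with he
  have h1 := disc_fin (v ∘ e.symm)
  have h2 : ∏ i, ∏ j ∈ ({i}ᶜ : Finset (Fin (Fintype.card ι))), ‖(v ∘ e.symm) i - (v ∘ e.symm) j‖ =
      ∏ i, ∏ j ∈ ({i}ᶜ : Finset ι), ‖v i - v j‖ := by
    refine Fintype.prod_equiv e.symm _ _ fun i => ?_
    refine Finset.prod_bij (fun j _ => e.symm j) ?_ ?_ ?_ ?_
    · intro j hj
      rw [Finset.mem_compl, Finset.mem_singleton] at hj ⊢
      exact fun h => hj (e.symm.injective h)
    · intro a _ b _ h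
      exact e.symm.injective h
    · intro j hj
      rw [Finset.mem_compl, Finset.mem_singleton] at hj
      refine ⟨e j, ?_, e.symm_apply_apply j⟩
      rw [Finset.mem_compl, Finset.mem_singleton]
      rintro rfl
      exact hj (e.symm_apply_apply j).symm
    · intro j _
      rfl
  have h3 : ∏ i, (max 1 ‖(v ∘ e.symm) i‖) ^ (2 * (Fintype.card ι - 1)) =
      ∏ i, (max 1 ‖v i‖) ^ (2 * (Fintype.card ι - 1)) :=
    Fintype.prod_equiv e.symm _ _ fun i => rfl
  rw [h2, h3] at h1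
  exact h1

variable {L : Type} [Field L] [NumberField L]

/-- upper bound for differences -/
theorem disc_log {ι : Type} [Fintype ι] [DecidableEq ι] (v : ι → 𝓞 L) (hv : Function.Injective v)
    (hN : 0 < Fintype.card ι) (h : ℝ) (hh : ∀ i, ht (v i : L) = h) :
    ∑ σ : L →+* ℂ, Real.log ‖σ ((∏ i, ∏ j ∈ ({i}ᶜ : Finset ι), (v i - v j) : 𝓞 L) : L)‖ ≤
      finrank ℚ L * (Fintype.card ι * Real.log (Fintype.card ι) +
        2 * (Fintype.card ι) * (Fintype.card ι) * h) := by
  set N := Fintype.card ι with hNdef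
  have hNR : (0 : ℝ) < N := by exact_mod_cast hN
  have h0 : ∀ i, ∀ j ∈ ({i}ᶜ : Finset ι), v i - v j ≠ 0 := by
    intro i j hj
    rw [Finset.mem_compl, Finset.mem_singleton] at hj
    exact sub_ne_zero.mpr fun h => hj (hv h).symm
  have hcoe : ((∏ i, ∏ j ∈ ({i}ᶜ : Finset ι), (v i - v j) : 𝓞 L) : L) =
      ∏ i, ∏ j ∈ ({i}ᶜ : Finset ι), ((v i : L) - (v j : L)) := by
    have := map_prod (algebraMap (𝓞 L) L) (fun i => ∏ j ∈ ({i}ᶜ : Finset ι), (v i - v j))
      Finset.univ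
    refine this.trans ?_
    refine Finset.prod_congr rfl fun i _ => ?_
    rw [map_prod]
    refine Finset.prod_congr rfl fun j _ => ?_
    exact map_sub _ _ _
  have hpt : ∀ σ : L →+* ℂ,
      Real.log ‖σ ((∏ i, ∏ j ∈ ({i}ᶜ : Finset ι), (v i - v j) : 𝓞 L) : L)‖ ≤
        N * Real.log N + 2 * N * ∑ i, Real.posLog ‖σ (v i)‖ := by
    intro σ
    have h1 := disc_gen (fun i => σ (v i : L))
    have h2 : ‖σ ((∏ i, ∏ j ∈ ({i}ᶜ : Finset ι), (v i - v j) : 𝓞 L) : L)‖ =
        ∏ i, ∏ j ∈ ({i}ᶜ : Finset ι), ‖σ (v i : L) - σ (v j : L)‖ := by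
      rw [hcoe, map_prod, norm_prod]
      refine Finset.prod_congr rfl fun i _ => ?_
      rw [map_prod, norm_prod]
      refine Finset.prod_congr rfl fun j _ => ?_
      rw [map_sub]
    rw [← h2] at h1
    have hpos : 0 < ‖σ ((∏ i, ∏ j ∈ ({i}ᶜ : Finset ι), (v i - v j) : 𝓞 L) : L)‖ := by
      rw [h2]
      refine Finset.prod_pos fun i _ => Finset.prod_pos fun j hj => ?_
      rw [norm_pos_iff, ← map_sub, _root_.map_ne_zero]
      intro h
      exact h0 i j hj (RingOfIntegers.ext (by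
        rw [show ((v i - v j : 𝓞 L) : L) = (v i : L) - (v j : L) from map_sub _ _ _]
        exact h))
    refine (Real.log_le_log hpos h1).trans ?_
    have hprod : 0 < ∏ i, (max 1 ‖σ (v i : L)‖) ^ (2 * (N - 1)) :=
      Finset.prod_pos fun i _ => pow_pos (lt_max_of_lt_left one_pos) _
    rw [Real.log_mul (by positivity) hprod.ne', Real.log_pow,
      Real.log_prod (fun i _ => (pow_pos (lt_max_of_lt_left one_pos) _).ne')]
    have h3 : ∀ i, Real.log ((max 1 ‖σ (v i : L)‖) ^ (2 * (N - 1))) ≤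
        2 * N * Real.posLog ‖σ (v i)‖ := by
      intro i
      rw [Real.log_pow, ← Real.posLog_eq_log_max_one (norm_nonneg _)]
      refine mul_le_mul_of_nonneg_right ?_ Real.posLog_nonneg
      have : 2 * (N - 1) ≤ 2 * N := by omega
      exact_mod_cast this
    have h4 := Finset.sum_le_sum fun i (_ : i ∈ Finset.univ) => h3 i
    rw [← Finset.mul_sum] at h4
    linarith
  refine (Finset.sum_le_sum fun σ _ => hpt σ).trans ?_
  rw [Finset.sum_add_distrib, Finset.sum_const, ← Finset.mul_sum, Finset.sum_comm,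
    Finset.card_univ, NumberField.Embeddings.card L ℂ, nsmul_eq_mul]
  have h5 : ∑ i, ∑ σ : L →+* ℂ, Real.posLog ‖σ (v i : L)‖ = N * (finrank ℚ L * h) := by
    rw [Finset.sum_congr rfl (fun i _ => (ht_sum (v i : L)).trans (by rw [hh i])),
      Finset.sum_const, Finset.card_univ, ← hNdef, nsmul_eq_mul]
  rw [h5]
  apply le_of_eq
  ring

end

end Pool.Agent.W110.RA
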