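import Pool.Agent.W110.RA.C

/-!
# The lower bound in the wildly ramified case
-/

set_option autoImplicit false
set_option linter.unusedSectionVars false

namespace Pool.Agent.W110.RA

open NumberField Module Polynomial

noncomputable section

variable {L : Type} [Field L] [NumberField L] [IsGalois ℚ L]

theorem stab {m j : ℕ} (hm : m ≠ 0) {z : L} (hz : IsPrimitiveRoot z m) (hj : 2 ^ j * 2 ^ j ∣ m)
    (a : L) (ha : a ≠ 0) (h1 : ∀ g : Gal(L/ℚ), g z = z → g a ≠ -a)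
    (h2 : ∀ g : Gal(L/ℚ), g z = -z → g a ≠ a ∧ g a ≠ -a)
    {k : Gal(L/ℚ)} (hk : k (z ^ 2 ^ j) = z ^ 2 ^ j) (hka : (k a) ^ 2 ^ j = a ^ 2 ^ j) :
    k z = z ∧ k a = a := by
  have hz0 : z ≠ 0 := hz.ne_zero hm
  obtain ⟨M, hM⟩ := hj
  have hM0 : M ≠ 0 := by
    rintro rfl
    exact hm (by rw [hM, mul_zero])
  have hfix : ∀ r : L, r ^ 2 ^ j = 1 → k r = r := by
    intro r hr
    have e1 : IsPrimitiveRoot (z ^ 2 ^ j) (2 ^ j * M) :=
      hz.pow (Nat.pos_of_ne_zero hm) (by rw [hM]; ring)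
    have e2 : r ^ (2 ^ j * M) = 1 := by rw [pow_mul, hr, one_pow]
    haveI : NeZero (2 ^ j * M) := ⟨mul_ne_zero (by positivity) hM0⟩
    obtain ⟨i, -, hi⟩ := e1.eq_pow_of_pow_eq_one e2
    rw [← hi, map_pow, hk]
  obtain ⟨ρ, hρ⟩ : ∃ ρ : L, ρ = k z / z := ⟨_, rfl⟩
  obtain ⟨ρ', hρ'⟩ : ∃ ρ' : L, ρ' = k a / a := ⟨_, rfl⟩
  have hkz : k z = ρ * z := by rw [hρ, div_mul_cancel₀ _ hz0]
  have hka' : k a = ρ' * a := by rw [hρ', div_mul_cancel₀ _ ha]
  have hr1 : ρ ^ 2 ^ j = 1 := by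
    rw [hρ, div_pow, ← map_pow, hk, div_self (pow_ne_zero _ hz0)]
  have hr2 : ρ' ^ 2 ^ j = 1 := by
    rw [hρ', div_pow, hka, div_self (pow_ne_zero _ ha)]
  have hit : ∀ i : ℕ, (k ^ i) z = ρ ^ i * z ∧ (k ^ i) a = ρ' ^ i * a := by
    intro i
    induction i with
    | zero => simp
    | succ i ih =>
      rw [pow_succ' k i, AlgEquiv.mul_apply, AlgEquiv.mul_apply, ih.1, ih.2, map_mul, map_mul,
        map_pow, map_pow, hfix ρ hr1, hfix ρ' hr2, hkz, hka']
      constructor <;> ring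
  have hex : ∃ i : ℕ, ρ ^ 2 ^ i = 1 ∧ ρ' ^ 2 ^ i = 1 := ⟨j, hr1, hr2⟩
  classical
  rcases Nat.eq_zero_or_pos (Nat.find hex) with h0 | h0
  · have h3 := Nat.find_spec hex
    rw [h0, pow_zero, pow_one, pow_one] at h3
    rw [hkz, hka', h3.1, h3.2, one_mul, one_mul]
    exact ⟨rfl, rfl⟩
  · exfalso
    obtain ⟨i, hi⟩ := Nat.exists_eq_succ_of_ne_zero h0.ne'
    have h3 := Nat.find_spec hex
    have h4 := Nat.find_min hex (m := i) (by omega)
    rw [hi, Nat.succ_eq_add_one, pow_succ, pow_mul, pow_mul] at h3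
    have h5 : ρ ^ 2 ^ i = 1 ∨ ρ ^ 2 ^ i = -1 := by
      rw [← mul_self_eq_one_iff, ← sq]
      exact h3.1
    have h6 : ρ' ^ 2 ^ i = 1 ∨ ρ' ^ 2 ^ i = -1 := by
      rw [← mul_self_eq_one_iff, ← sq]
      exact h3.2
    have h7 := hit (2 ^ i)
    rcases h5 with h5 | h5 <;> rcases h6 with h6 | h6
    · exact h4 ⟨h5, h6⟩
    · rw [h5, h6, one_mul, neg_one_mul] at h7
      exact h1 _ h7.1 h7.2
    · rw [h5, h6, one_mul, neg_one_mul] at h7
      exact (h2 _ h7.1).1 h7.2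
    · rw [h5, h6, neg_one_mul, neg_one_mul] at h7
      exact (h2 _ h7.1).2 h7.2

theorem compl_prod {α β : Type} [Fintype α] [Fintype β] [DecidableEq α] [DecidableEq β]
    {R : Type*} [CommRing R] (c : α) (y : β) (f : α × β → R) :
    ∏ x ∈ ({(c, y)}ᶜ : Finset (α × β)), f x =
      (∏ c' ∈ ({c}ᶜ : Finset α), ∏ y', f (c', y')) * ∏ y' ∈ ({y}ᶜ : Finset β), f (c, y') := by
  have h1 : ({(c, y)}ᶜ : Finset (α × β)) =
      (({c}ᶜ : Finset α) ×ˢ Finset.univ) ∪ (({c} : Finset α) ×ˢ ({y}ᶜ : Finset β)) := by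
    ext ⟨x1, x2⟩
    simp only [Finset.mem_compl, Finset.mem_singleton, Prod.mk.injEq, Finset.mem_union,
      Finset.mem_product, Finset.mem_univ, and_true]
    tauto
  have h2 : Disjoint (({c}ᶜ : Finset α) ×ˢ (Finset.univ : Finset β))
      (({c} : Finset α) ×ˢ ({y}ᶜ : Finset β)) := by
    rw [Finset.disjoint_left]
    rintro ⟨x1, x2⟩ hx hx'
    rw [Finset.mem_product] at hx hx'
    rw [Finset.mem_compl] at hx
    exact hx.1 hx'.1
  rw [h1, Finset.prod_union h2, Finset.prod_product, Finset.prod_product, Finset.prod_singleton]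

theorem wild {m j : ℕ} (hm : m ≠ 0) (hj1 : 1 ≤ j) {z : L} (hz : IsPrimitiveRoot z m)
    (hj : 2 ^ j * 2 ^ j ∣ m) (a : 𝓞 L) (ha : (a : L) ≠ 0)
    (h1 : ∀ g : Gal(L/ℚ), g z = z → g (a : L) ≠ -a)
    (h2 : ∀ g : Gal(L/ℚ), g z = -z → g (a : L) ≠ a ∧ g (a : L) ≠ -a) :
    ((2 : ℝ) ^ j - 1) * Real.log 2 ≤ Real.log (2 ^ j * (orb z (a : L)).card) +
      2 * (2 ^ j) ^ 2 * (orb z (a : L)).card * ht (a : L) := by
  classical
  set q : ℕ := 2 ^ j with hq
  have hq2 : 2 ≤ q := by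
    rw [hq]
    calc 2 = 2 ^ 1 := rfl
      _ ≤ 2 ^ j := Nat.pow_le_pow_right (by norm_num) hj1
  obtain ⟨M', hM'⟩ := hj
  set M := q * M' with hM
  have hmM : m = q * M := by rw [hM', hM]; ring
  have hM'0 : 0 < M' := by
    rcases Nat.eq_zero_or_pos M' with h | h
    · exfalso
      apply hm
      rw [hmM, hM, h, mul_zero, mul_zero]
    · exact h
  have hM2 : 2 ≤ M := by
    rw [hM]
    nlinarith
  have hcop : ∀ c : ℕ, (1 + c * M).Coprime m := by
    intro c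
    have e1 : (1 + c * M).Coprime M :=
      (Nat.coprime_add_mul_right_left 1 M c).mpr (Nat.coprime_one_left M)
    rw [hmM]
    exact Nat.Coprime.mul_right (e1.coprime_dvd_right ⟨M', hM⟩) e1
  choose G hG using fun c : ℕ => exists_conj hm hz (hcop c)
  have hGq : ∀ c : ℕ, G c (z ^ q) = z ^ q := by
    intro c
    rw [map_pow, hG, ← pow_mul]
    have e1 : (1 + c * M) * q = q + m * c := by rw [hmM]; ring
    rw [e1, pow_add, pow_mul z m c, hz.pow_eq_one, one_pow, mul_one]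
  set D := (orb z (a : L)).card with hD
  have hD0 : 0 < D := orb_pos z _
  let ι : Type := Fin q × (orbO z a : Finset (𝓞 L))
  let v : ι → 𝓞 L := fun i => (act (G i.1) i.2.1) ^ q
  have hcard : Fintype.card ι = q * D := by
    change Fintype.card (Fin q × (orbO z a : Finset (𝓞 L))) = q * D
    rw [Fintype.card_prod, Fintype.card_fin, Fintype.card_coe, orbO_card]
  have hst := fun k : Gal(L/ℚ) => stab (k := k) hm hz ⟨M', hM'⟩ (a : L) ha h1 h2
  have hinj : Function.Injective v := by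
    rintro ⟨c, ⟨y, hy⟩⟩ ⟨c', ⟨y', hy'⟩⟩ hvv
    obtain ⟨h, hh, hhy⟩ := mem_orbO.mp hy
    obtain ⟨h', hh', hhy'⟩ := mem_orbO.mp hy'
    have e1 : (act (G c) y) ^ q = (act (G c') y') ^ q := hvv
    rw [← hhy, ← hhy', ← act_mul, ← act_mul] at e1
    set s := G c * h with hs
    set s' := G c' * h' with hs'
    have e2 : (s (a : L)) ^ q = (s' (a : L)) ^ q := by
      have e3 := congrArg (fun x : 𝓞 L => (x : L)) e1
      have e4 : ∀ w : 𝓞 L, ((w ^ q : 𝓞 L) : L) = (w : L) ^ q :=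
        fun w => map_pow (algebraMap (𝓞 L) L) w _
      simp only [e4, act_coe] at e3
      exact e3
    have e5 : s⁻¹ (s (a : L)) = a := by
      rw [← AlgEquiv.mul_apply, inv_mul_cancel, AlgEquiv.one_apply]
    have hsq : s (z ^ q) = z ^ q := by
      rw [hs, AlgEquiv.mul_apply, map_pow, hh, hGq]
    have hsq' : s' (z ^ q) = z ^ q := by
      rw [hs', AlgEquiv.mul_apply, map_pow, hh', hGq]
    have e6 : (s⁻¹ * s') (z ^ q) = z ^ q := by
      rw [AlgEquiv.mul_apply, hsq']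
      conv_lhs => rw [← hsq]
      rw [← AlgEquiv.mul_apply, inv_mul_cancel, AlgEquiv.one_apply]
    have e7 : ((s⁻¹ * s') (a : L)) ^ q = (a : L) ^ q := by
      rw [AlgEquiv.mul_apply, ← map_pow, ← e2, map_pow, e5]
    obtain ⟨e8, e9⟩ := hst _ e6 e7
    have back : ∀ x : L, (s⁻¹ * s') x = x → s' x = s x := by
      intro x hx
      have e := congrArg s hx
      have e' : s ((s⁻¹ * s') x) = s' x := by rw [← AlgEquiv.mul_apply, mul_inv_cancel_left]
      rw [e'] at e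
      exact e
    have f1 := back z e8
    have f2 := back a e9
    rw [hs, hs', AlgEquiv.mul_apply, AlgEquiv.mul_apply, hh, hh', hG, hG] at f1
    have hlt : ∀ c : Fin q, 1 + (c : ℕ) * M < m := by
      intro c
      have := c.2
      rw [hmM]
      have h3 : (c : ℕ) * M + M ≤ q * M := by
        calc (c : ℕ) * M + M = (c + 1) * M := by ring
          _ ≤ q * M := Nat.mul_le_mul_right M (by omega)
      omega
    have f3 := hz.pow_inj (hlt c') (hlt c) f1
    have f4 : (c' : ℕ) = c := by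
      have : (c' : ℕ) * M = c * M := by omega
      exact Nat.eq_of_mul_eq_mul_right (by omega) this
    have f5 : c' = c := Fin.ext f4
    subst f5
    have f6 : act (G c') y' = act (G c') y := by
      apply RingOfIntegers.ext
      rw [← hhy, ← hhy', ← act_mul, ← act_mul, act_coe, act_coe]
      exact f2
    have f7 := act_inj _ f6
    subst f7
    rfl
  have hht : ∀ i, ht (v i : L) = q * ht (a : L) := by
    rintro ⟨c, ⟨y, hy⟩⟩
    obtain ⟨h, hh, hhy⟩ := mem_orbO.mp hy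
    have e1 : ((v (c, ⟨y, hy⟩) : 𝓞 L) : L) = (G c (h (a : L))) ^ q := by
      have e4 : ∀ w : 𝓞 L, ((w ^ q : 𝓞 L) : L) = (w : L) ^ q :=
        fun w => map_pow (algebraMap (𝓞 L) L) w _
      change (((act (G c) y) ^ q : 𝓞 L) : L) = _
      rw [e4, act_coe, ← hhy, act_coe]
    rw [e1, ht_pow, ht_conj, ht_conj]
  have hN0 : 0 < Fintype.card ι := by rw [hcard]; positivity
  have hup := disc_log v hinj hN0 _ hht
  -- the lower bound
  have hdiv : ∀ i : ι, ∃ w : 𝓞 L, ∏ x ∈ ({i}ᶜ : Finset ι), (v i - v x) = 2 ^ (q - 1) * w := by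
    rintro ⟨c, y⟩
    have e1 := compl_prod c y (fun x => v (c, y) - v x)
    have e2 : ∀ c' : Fin q, ∃ w : 𝓞 L, ∏ y', (v (c, y) - v (c', y')) = 2 * w := by
      intro c'
      obtain ⟨w, hw⟩ := prod_congr_mod hm hz a j (hGq c) (hGq c') y.2
      refine ⟨w, ?_⟩
      rw [← hw, ← Finset.prod_coe_sort (orbO z a)]
    choose w hw using e2
    refine ⟨(∏ c' ∈ ({c}ᶜ : Finset (Fin q)), w c') *
      ∏ y' ∈ ({y}ᶜ : Finset (orbO z a : Finset (𝓞 L))), (v (c, y) - v (c, y')), ?_⟩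
    refine e1.trans ?_
    rw [Finset.prod_congr rfl (fun c' _ => hw c'), Finset.prod_mul_distrib, Finset.prod_const,
      Finset.card_compl, Finset.card_singleton, Fintype.card_fin, mul_assoc]
  choose w hw using hdiv
  have hΔ : ∏ i, ∏ x ∈ ({i}ᶜ : Finset ι), (v i - v x) =
      2 ^ ((q - 1) * Fintype.card ι) * ∏ i, w i := by
    rw [Finset.prod_congr rfl (fun i _ => hw i), Finset.prod_mul_distrib, Finset.prod_const,
      Finset.card_univ, ← pow_mul]
  have hΔ0 : ∏ i, ∏ x ∈ ({i}ᶜ : Finset ι), (v i - v x) ≠ 0 := by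
    rw [Finset.prod_ne_zero_iff]
    intro i _
    rw [Finset.prod_ne_zero_iff]
    intro x hx
    rw [Finset.mem_compl, Finset.mem_singleton] at hx
    exact sub_ne_zero.mpr fun h => hx (hinj h).symm
  have hW0 : ∏ i, w i ≠ 0 := by
    intro h
    rw [hΔ, h, mul_zero] at hΔ0
    exact hΔ0 rfl
  have hW0' : ((∏ i, w i : 𝓞 L) : L) ≠ 0 := by
    intro h
    exact hW0 (RingOfIntegers.ext (h.trans (map_zero (algebraMap (𝓞 L) L)).symm))
  have hlow := log_norm_nonneg (∏ i, w i : 𝓞 L).isIntegral_coe hW0'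
  have hsum : ∑ σ : L →+* ℂ,
      Real.log ‖σ ((∏ i, ∏ x ∈ ({i}ᶜ : Finset ι), (v i - v x) : 𝓞 L) : L)‖ =
      finrank ℚ L * (((q - 1 : ℕ) : ℝ) * Fintype.card ι * Real.log 2) +
        ∑ σ : L →+* ℂ, Real.log ‖σ ((∏ i, w i : 𝓞 L) : L)‖ := by
    have e1 : ∀ σ : L →+* ℂ,
        Real.log ‖σ ((∏ i, ∏ x ∈ ({i}ᶜ : Finset ι), (v i - v x) : 𝓞 L) : L)‖ =
          ((q - 1 : ℕ) : ℝ) * Fintype.card ι * Real.log 2 +
            Real.log ‖σ ((∏ i, w i : 𝓞 L) : L)‖ := by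
      intro σ
      rw [hΔ]
      have e2 : ((2 ^ ((q - 1) * Fintype.card ι) * ∏ i, w i : 𝓞 L) : L) =
          2 ^ ((q - 1) * Fintype.card ι) * ((∏ i, w i : 𝓞 L) : L) := by
        refine (map_mul (algebraMap (𝓞 L) L) _ _).trans ?_
        rw [map_pow, map_ofNat]
      rw [e2, map_mul, map_pow, map_ofNat, norm_mul, norm_pow, Complex.norm_ofNat,
        Real.log_mul (by positivity) (by
          rw [norm_ne_zero_iff]
          exact (_root_.map_ne_zero σ).mpr hW0'), Real.log_pow]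
      push_cast
      ring
    rw [Finset.sum_congr rfl (fun σ _ => e1 σ), Finset.sum_add_distrib, Finset.sum_const,
      Finset.card_univ, NumberField.Embeddings.card L ℂ, nsmul_eq_mul]
  rw [hsum] at hup
  have hn : (0 : ℝ) < finrank ℚ L := by exact_mod_cast (finrank_pos : 0 < finrank ℚ L)
  set N := Fintype.card ι with hNdef
  have hNR : (0 : ℝ) < N := by exact_mod_cast hN0
  have e1 : (finrank ℚ L : ℝ) * N * (((q - 1 : ℕ) : ℝ) * Real.log 2) ≤
      finrank ℚ L * N * (Real.log N + 2 * N * (q * ht (a : L))) := by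
    calc (finrank ℚ L : ℝ) * N * (((q - 1 : ℕ) : ℝ) * Real.log 2)
        = finrank ℚ L * (((q - 1 : ℕ) : ℝ) * N * Real.log 2) := by ring
      _ ≤ finrank ℚ L * (N * Real.log N + 2 * N * N * (q * ht (a : L))) := by linarith
      _ = finrank ℚ L * N * (Real.log N + 2 * N * (q * ht (a : L))) := by ring
  have e2 := le_of_mul_le_mul_left e1 (mul_pos hn hNR)
  have e3 : ((q - 1 : ℕ) : ℝ) = 2 ^ j - 1 := by
    rw [Nat.cast_sub (by omega), hq]
    push_cast
    rfl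
  have e4 : (N : ℝ) = 2 ^ j * D := by
    rw [hcard, hq]
    push_cast
    rfl
  rw [e3, e4] at e2
  refine e2.trans (le_of_eq ?_)
  rw [hq]
  push_cast
  ring

end

end Pool.Agent.W110.RA
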