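import Pool.Agent.W110.RA.D
import Pool.Agent.R976.MG.Near2
import Pool.Agent.Helper259.HtExt

/-!
# The lower bound when the ramification is small
-/

set_option autoImplicit false
set_option linter.unusedSectionVars false

namespace Pool.Agent.W110.RA

open NumberField Module Polynomial
open Pool.Agent.Y740.RL (FewConj RamLe)
open scoped Pointwise

noncomputable section

theorem sum_embeddings {K L : Type} [Field K] [NumberField K] [Field L] [NumberField L]
    [Algebra K L] (g : (K →+* ℂ) → ℝ) :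
    ∑ ψ : L →+* ℂ, g (ψ.comp (algebraMap K L)) = finrank K L * ∑ φ : K →+* ℂ, g φ := by
  classical
  rw [← Finset.sum_fiberwise Finset.univ (fun ψ : L →+* ℂ => ψ.comp (algebraMap K L))
    (fun ψ => g (ψ.comp (algebraMap K L))), Finset.mul_sum]
  refine Finset.sum_congr rfl fun φ _ => ?_
  have : ∀ ψ ∈ Finset.univ.filter (fun ψ : L →+* ℂ => ψ.comp (algebraMap K L) = φ),
      g (ψ.comp (algebraMap K L)) = g φ := by
    intro ψ hψ
    rw [(Finset.mem_filter.mp hψ).2]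
  rw [Finset.sum_congr rfl this, Finset.sum_const,
    ← Pool.Agent.Helper259.HtExt.card_ext (L := L) φ, nsmul_eq_mul]
  congr 2
  rw [Nat.card_eq_fintype_card, Fintype.card_subtype]

theorem log_height_int {K : Type} [Field K] [NumberField K] {x : K} (hx : IsIntegral ℤ x) :
    Real.log (Height.mulHeight₁ x) = ∑ σ : K →+* ℂ, Real.posLog ‖σ x‖ := by
  have h1 : ∏ᶠ v : FinitePlace K, max (v x) 1 = 1 := by
    apply finprod_eq_one_of_forall_eq_one
    intro v
    apply max_eq_right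
    rw [← FinitePlace.norm_embedding_eq v x]
    exact FinitePlace.norm_le_one K v.maximalIdeal (⟨x, hx⟩ : 𝓞 K)
  rw [NumberField.mulHeight₁_eq, h1, mul_one,
    Pool.Agent.Helper259.HtExt.prod_infinitePlace_pow_mult K (fun w => max (w x) 1),
    Real.log_prod (fun σ _ => (lt_max_of_lt_right one_pos).ne')]
  refine Finset.sum_congr rfl fun σ _ => ?_
  rw [InfinitePlace.apply, max_comm, ← Real.posLog_eq_log_max_one (norm_nonneg _)]

/-- the height does not depend on the field -/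
theorem ht_eq {K L : Type} [Field K] [NumberField K] [Field L] [NumberField L]
    [Algebra K L] {x : K} (hx : IsIntegral ℤ x) :
    Real.log (Height.mulHeight₁ x) / finrank ℚ K = ht (algebraMap K L x) := by
  rw [log_height_int hx]
  unfold ht
  have h1 := sum_embeddings (K := K) (L := L) (fun φ => Real.posLog ‖φ x‖)
  have h2 : ∑ ψ : L →+* ℂ, Real.posLog ‖ψ (algebraMap K L x)‖ =
      finrank K L * ∑ φ : K →+* ℂ, Real.posLog ‖φ x‖ := h1
  rw [h2, ← finrank_mul_finrank ℚ K L]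
  have h3 : (finrank ℚ K : ℝ) ≠ 0 := by exact_mod_cast (finrank_pos : 0 < finrank ℚ K).ne'
  have h4 : (finrank K L : ℝ) ≠ 0 := by exact_mod_cast (finrank_pos : 0 < finrank K L).ne'
  push_cast
  field_simp

theorem exists_two : ∃ 𝔭 : Ideal (𝓞 ℚ), 𝔭.IsMaximal ∧ ((2 : ℕ) : 𝓞 ℚ) ∈ 𝔭 := by
  have h1 : Ideal.span {(2 : 𝓞 ℚ)} ≠ ⊤ := by
    intro h
    rw [Ideal.span_singleton_eq_top] at h
    have h2 := h.map Rat.ringOfIntegersEquiv
    rw [map_ofNat] at h2
    rw [Int.isUnit_iff] at h2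
    omega
  obtain ⟨𝔭, h2, h3⟩ := Ideal.exists_le_maximal _ h1
  refine ⟨𝔭, h2, h3 ?_⟩
  exact Ideal.mem_span_singleton_self _

theorem ram_le {m e : ℕ} (hm : m ≠ 0) {E : Type} [Field E] [NumberField E]
    [IsCyclotomicExtension {m} ℚ E] (he : ¬ (2 ^ e ∣ m)) {𝔭 : Ideal (𝓞 ℚ)}
    (h2 : ((2 : ℕ) : 𝓞 ℚ) ∈ 𝔭) : RamLe 𝔭 E (2 ^ e) := by
  intro 𝔓 hmax hlies
  have hp : Fact (Nat.Prime 2) := ⟨Nat.prime_two⟩
  have hmem : (2 : 𝓞 E) ∈ 𝔓 := by
    have h3 := hlies.over
    have h4 : ((2 : ℕ) : 𝓞 ℚ) ∈ Ideal.comap (algebraMap (𝓞 ℚ) (𝓞 E)) 𝔓 := by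
      have : 𝔭 = Ideal.comap (algebraMap (𝓞 ℚ) (𝓞 E)) 𝔓 := h3
      rw [← this]
      exact h2
    rw [Ideal.mem_comap, map_natCast] at h4
    exact_mod_cast h4
  have hlz : 𝔓.LiesOver (Ideal.span {((2 : ℕ) : ℤ)}) := by
    rw [Ideal.liesOver_iff]
    refine Ideal.IsMaximal.eq_of_le (Int.ideal_span_isMaximal_of_prime 2)
      (Ideal.IsPrime.under ℤ 𝔓).ne_top ?_
    rw [Ideal.span_singleton_le_iff_mem, Ideal.mem_comap]
    simpa using hmem
  have hprime : 𝔓.IsPrime := hmax.isPrime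
  have hdvd := Ideal.ramificationIdx_above_dvd (R := ℤ) 𝔭 𝔓
  have hpos : 0 < 𝔓.ramificationIdx ℤ := Ideal.ramificationIdx_pos 𝔓 ℤ
  refine (Nat.le_of_dvd hpos hdvd).trans ?_
  by_cases hev : 2 ∣ m
  · obtain ⟨k, m', hodd, hmk⟩ := Nat.exists_eq_pow_mul_and_not_dvd hm 2 (by norm_num)
    have hk : k ≠ 0 := by
      rintro rfl
      rw [pow_zero, one_mul] at hmk
      rw [hmk] at hev
      exact hodd hev
    obtain ⟨k', rfl⟩ := Nat.exists_eq_succ_of_ne_zero hk
    rw [IsCyclotomicExtension.Rat.ramificationIdx_eq (p := 2) (k := k') (m := m') m E 𝔓 hmk hodd]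
    have h5 : k' < e := by
      by_contra hcon
      push Not at hcon
      apply he
      rw [hmk]
      exact Dvd.dvd.mul_right (pow_dvd_pow 2 (by omega)) _
    rw [show 2 - 1 = 1 from rfl, mul_one]
    exact Nat.pow_le_pow_right (by norm_num) h5.le
  · have : NeZero m := ⟨hm⟩
    rw [IsCyclotomicExtension.Rat.ramificationIdx_eq_of_not_dvd (m := m) 2 E 𝔓 hev]
    exact Nat.one_le_two_pow

end

end Pool.Agent.W110.RA
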