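import Pool.Agent.W110.RA.E

/-!
# The lower bound when the ramification is small
-/

set_option autoImplicit false
set_option linter.unusedSectionVars false

namespace Pool.Agent.W110.RA

open NumberField Module Polynomial
open Pool.Agent.Y740.RL (FewConj RamLe)
open scoped Pointwise

noncomputable section

theorem orb_natDegree {L : Type} [Field L] [NumberField L] [IsGalois ℚ L] (z a : L) :
    (orb z a).card = (minpoly (IntermediateField.adjoin ℚ {z}) a).natDegree := by
  classical
  set E := IntermediateField.adjoin ℚ {z} with hE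
  have hzE : z ∈ E := IntermediateField.mem_adjoin_simple_self ℚ z
  have hsep : (minpoly E a).Separable := (Algebra.IsSeparable.isSeparable E a)
  have hsplit : ((minpoly E a).map (algebraMap E L)).Splits := Normal.splits' a
  have halg : IsAlgebraic E a := Algebra.IsAlgebraic.isAlgebraic a
  rw [← card_rootSet_eq_natDegree (K := L) hsep hsplit, ← Set.toFinset_card]
  congr 1
  ext y
  rw [Set.mem_toFinset, mem_rootSet, mem_orb]
  constructor
  · rintro ⟨g, hg, rfl⟩
    refine ⟨minpoly.ne_zero halg.isIntegral, ?_⟩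
    have hfix : g ∈ E.fixingSubgroup := by
      rw [IntermediateField.mem_fixingSubgroup_iff]
      intro x hx
      rw [hE] at hx
      induction hx using IntermediateField.adjoin_induction with
      | mem x hx =>
        rw [Set.mem_singleton_iff] at hx
        rw [hx]
        exact hg
      | algebraMap x => exact g.commutes x
      | add x y _ _ hx hy => rw [map_add, hx, hy]
      | inv x _ hx => rw [map_inv₀, hx]
      | mul x y _ _ hx hy => rw [map_mul, hx, hy]
    let gE : L ≃ₐ[E] L := IntermediateField.fixingSubgroupEquiv E ⟨g, hfix⟩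
    have h1 : gE a = g a := rfl
    rw [← h1]
    have h2 := aeval_algHom_apply gE.toAlgHom a (minpoly E a)
    rw [minpoly.aeval, map_zero] at h2
    exact h2
  · rintro ⟨-, hy⟩
    obtain ⟨σ, hσ⟩ := minpoly.exists_algEquiv_of_root' halg hy
    refine ⟨σ.restrictScalars ℚ, ?_, hσ⟩
    exact σ.commutes ⟨z, hzE⟩

theorem low : ∃ C : ℝ, 0 < C ∧ ∀ (L : Type) [Field L] [NumberField L] [IsGalois ℚ L] (m e : ℕ)
    (z : L) (a : 𝓞 L), m ≠ 0 → IsPrimitiveRoot z m → ¬ (2 ^ e ∣ m) → (a : L) ≠ 0 →
    (∀ k : ℕ, 0 < k → (a : L) ^ k ≠ 1) →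
    Real.exp (-(C * Real.sqrt (1 + Real.log (orb z (a : L)).card))) / (C * 2 ^ e) ≤
      (orb z (a : L)).card * ht (a : L) := by
  obtain ⟨𝔭, h𝔭, h2⟩ := exists_two
  obtain ⟨C, hC, h⟩ := Pool.Agent.R976.MG.power_bound_ram ℚ Nat.prime_two 𝔭 h𝔭 h2 1 1 le_rfl
  refine ⟨C, hC, ?_⟩
  intro L _ _ _ m e z a hm hz he ha hroot
  have hNZ : NeZero m := ⟨hm⟩
  have hD := orb_natDegree z (a : L)
  set E := IntermediateField.adjoin ℚ {z} with hE
  have hzE : z ∈ E := IntermediateField.mem_adjoin_simple_self ℚ z
  have hcyc : IsCyclotomicExtension {m} ℚ E := hz.intermediateField_adjoin_isCyclotomicExtension ℚ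
  have hgal : IsGalois ℚ E := IsCyclotomicExtension.isGalois {m} ℚ E
  set L0 := IntermediateField.adjoin E {(a : L)} with hL0
  have haL : (a : L) ∈ L0 := IntermediateField.mem_adjoin_simple_self E (a : L)
  have hnf : NumberField L0 := NumberField.of_module_finite E L0
  have hfr : finrank E L0 = (orb z (a : L)).card := by
    rw [hD, hL0]
    exact IntermediateField.adjoin.finrank (Algebra.IsIntegral.isIntegral (R := E) (a : L))
  have hfew : FewConj 𝔭 E 1 1 := by
    intro 𝔓 _ _ σ _
    have hcomm : ∀ g h : Gal(E/ℚ), g * h = h * g := by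
      have : IsAbelianGalois ℚ E := IsCyclotomicExtension.isAbelianGalois {m} ℚ E
      exact fun g h => mul_comm' g h
    have h3 : (Set.range fun g : Gal(E/ℚ) => g * σ ^ 1 * g⁻¹) ⊆ {σ ^ 1} := by
      rintro _ ⟨g, rfl⟩
      rw [Set.mem_singleton_iff]
      simp only []
      rw [hcomm g (σ ^ 1), mul_inv_cancel_right]
    calc (Set.range fun g : Gal(E/ℚ) => g * σ ^ 1 * g⁻¹).ncard ≤ ({σ ^ 1} : Set _).ncard :=
          Set.ncard_le_ncard h3 (Set.finite_singleton _)
      _ = 1 := Set.ncard_singleton _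
  have hram : RamLe 𝔭 E (2 ^ e) := ram_le hm he h2
  have h4 := h E L0 hfew (2 ^ e) hram ⟨(a : L), haL⟩ (by
    intro h5
    apply ha
    exact congrArg Subtype.val h5) (by
    intro k hk h5
    apply hroot k hk
    exact congrArg Subtype.val h5)
  rw [hfr, ht_eq (L := L) (by
    rw [← isIntegral_algebraMap_iff (algebraMap L0 L).injective]
    exact a.isIntegral_coe)] at h4
  have h5 : algebraMap L0 L ⟨(a : L), haL⟩ = (a : L) := rfl
  rw [h5] at h4
  have h6 : (0 : ℝ) < (orb z (a : L)).card := by exact_mod_cast orb_pos z _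
  have h7 : Real.exp (-(C * Real.sqrt (1 + Real.log (orb z (a : L)).card))) / (C * 2 ^ e) =
      (orb z (a : L)).card * (Real.exp (-(C * Real.sqrt (1 + Real.log (orb z (a : L)).card))) /
        (C * ((2 ^ e : ℕ) : ℝ) * (orb z (a : L)).card)) := by
    push_cast
    field_simp
  rw [h7]
  exact mul_le_mul_of_nonneg_left h4 h6.le

end

end Pool.Agent.W110.RA
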