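import Pool.Agent.W110.RA.F

/-!
# A lower bound for the height over cyclotomic fields
-/

set_option autoImplicit false
set_option linter.unusedSectionVars false

namespace Pool.Agent.W110.RA

open NumberField Module Polynomial

noncomputable section

/-- the bound -/
def bd (C : ℝ) (D : ℕ) : ℝ := Real.exp (-(C * Real.sqrt (1 + Real.log D))) / C

theorem bd_anti {C : ℝ} (hC : 0 < C) {D D' : ℕ} (h0 : 0 < D) (h : D ≤ D') : bd C D' ≤ bd C D := by
  unfold bd
  have h1 : (0 : ℝ) < D := by exact_mod_cast h0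
  have h2 : (D : ℝ) ≤ D' := by exact_mod_cast h
  have h3 := Real.log_le_log h1 h2
  have h4 : Real.sqrt (1 + Real.log D) ≤ Real.sqrt (1 + Real.log D') :=
    Real.sqrt_le_sqrt (by linarith)
  have h5 := mul_le_mul_of_nonneg_left h4 hC.le
  gcongr

theorem exp_bound {x : ℝ} (hx : 1 ≤ x) : Real.exp (-Real.sqrt x) ≤ 24 / x ^ 2 := by
  have h1 := Real.pow_div_factorial_le_exp (Real.sqrt x) (Real.sqrt_nonneg x) 4
  have h2 : Real.sqrt x ^ 4 = x ^ 2 := by
    calc Real.sqrt x ^ 4 = (Real.sqrt x ^ 2) ^ 2 := by ring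
      _ = x ^ 2 := by rw [Real.sq_sqrt (by linarith)]
  rw [h2] at h1
  have h3 : ((4 : ℕ).factorial : ℝ) = 24 := by norm_num [Nat.factorial]
  rw [h3] at h1
  have h4 : 0 < x ^ 2 := by positivity
  rw [Real.exp_neg, inv_le_comm₀ (Real.exp_pos _) (by positivity), inv_div]
  exact h1

theorem log_le_quarter {y : ℝ} (hy : 0 < y) : Real.log y ≤ y / 4 + 0.39 := by
  have h1 := Real.log_le_sub_one_of_pos (x := y / 4) (by positivity)
  rw [Real.log_div hy.ne' (by norm_num)] at h1
  have h2 : Real.log 4 = 2 * Real.log 2 := by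
    rw [show (4 : ℝ) = 2 ^ 2 by norm_num, Real.log_pow]
    norm_num
  have h3 := Real.log_two_lt_d9
  linarith

variable {L : Type} [Field L] [NumberField L] [IsGalois ℚ L]

theorem sq_card {z a : L} (ha : a ≠ 0) {g : Gal(L/ℚ)} (hg : g z = z) (hga : g a = -a) :
    2 * (orb z (a ^ 2)).card ≤ (orb z a).card := by
  classical
  have h1 : orb z (a ^ 2) = (orb z a).image (fun x => x ^ 2) := by
    ext y
    rw [mem_orb, Finset.mem_image]
    constructor
    · rintro ⟨h, hh, rfl⟩
      exact ⟨h a, mem_orb.mpr ⟨h, hh, rfl⟩, (map_pow h a 2).symm⟩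
    · rintro ⟨x, hx, rfl⟩
      obtain ⟨h, hh, rfl⟩ := mem_orb.mp hx
      exact ⟨h, hh, map_pow h a 2⟩
  rw [h1]
  apply Finset.mul_card_image_le_card
  intro b hb
  obtain ⟨x, hx, rfl⟩ := Finset.mem_image.mp hb
  obtain ⟨h, hh, rfl⟩ := mem_orb.mp hx
  have hx0 : h a ≠ 0 := (_root_.map_ne_zero h).mpr ha
  have h2 : h a ≠ -h a := by
    intro e
    apply hx0
    have : (2 : L) * h a = 0 := by linear_combination e
    rcases mul_eq_zero.mp this with h3 | h3
    · exact absurd h3 two_ne_zero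
    · exact h3
  have h3 : -h a ∈ orb z a := mem_orb.mpr ⟨h * g, by rw [AlgEquiv.mul_apply, hg, hh], by
    rw [AlgEquiv.mul_apply, hga, map_neg]⟩
  calc 2 = ({h a, -h a} : Finset L).card := (Finset.card_pair h2).symm
    _ ≤ _ := by
      apply Finset.card_le_card
      intro y hy
      rw [Finset.mem_insert, Finset.mem_singleton] at hy
      rw [Finset.mem_filter]
      rcases hy with rfl | rfl
      · exact ⟨hx, rfl⟩
      · exact ⟨h3, neg_sq _⟩

theorem orb_sq_sub {z b : L} {g : Gal(L/ℚ)} (hg : g z = -z) (hgb : g b = b) :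
    (orb (z ^ 2) b).card ≤ (orb z b).card := by
  classical
  apply Finset.card_le_card
  intro y hy
  obtain ⟨h, hh, rfl⟩ := mem_orb.mp hy
  rw [map_pow] at hh
  rcases sq_eq_sq_iff_eq_or_eq_neg.mp hh with h1 | h1
  · exact mem_orb.mpr ⟨h, h1, rfl⟩
  · exact mem_orb.mpr ⟨h * g, by rw [AlgEquiv.mul_apply, hg, map_neg, h1, neg_neg], by
      rw [AlgEquiv.mul_apply, hgb]⟩

theorem orb_mul {z a : L} : (orb z (z * a)).card ≤ (orb z a).card := by
  classical
  have h1 : orb z (z * a) ⊆ (orb z a).image (fun x => z * x) := by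
    intro y hy
    obtain ⟨h, hh, rfl⟩ := mem_orb.mp hy
    rw [Finset.mem_image]
    exact ⟨h a, mem_orb.mpr ⟨h, hh, rfl⟩, by rw [map_mul, hh]⟩
  exact (Finset.card_le_card h1).trans Finset.card_image_le

/-- the bound outside the descents -/
theorem base {C0 : ℝ} (hC0 : 0 < C0)
    (hlow : ∀ (m e : ℕ) (z : L) (a : 𝓞 L), m ≠ 0 → IsPrimitiveRoot z m → ¬ (2 ^ e ∣ m) →
      (a : L) ≠ 0 → (∀ k : ℕ, 0 < k → (a : L) ^ k ≠ 1) →
      Real.exp (-(C0 * Real.sqrt (1 + Real.log (orb z (a : L)).card))) / (C0 * 2 ^ e) ≤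
        (orb z (a : L)).card * ht (a : L))
    {m : ℕ} {z : L} {a : 𝓞 L} (hm : m ≠ 0) (hz : IsPrimitiveRoot z m) (ha : (a : L) ≠ 0)
    (hroot : ∀ k : ℕ, 0 < k → (a : L) ^ k ≠ 1) (h1 : ∀ g : Gal(L/ℚ), g z = z → g (a : L) ≠ -a)
    (h2 : ∀ g : Gal(L/ℚ), g z = -z → g (a : L) ≠ a ∧ g (a : L) ≠ -a) :
    bd (12288 * (C0 + 1)) (orb z (a : L)).card ≤ (orb z (a : L)).card * ht (a : L) := by
  set D := (orb z (a : L)).card with hD
  have hD0 : 0 < D := orb_pos z _
  have hDR : (1 : ℝ) ≤ D := by exact_mod_cast hD0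
  set x := 1 + Real.log D with hx
  have hx1 : 1 ≤ x := by
    have := Real.log_nonneg hDR
    linarith
  obtain ⟨n, hn1, hn2⟩ := exists_nat_pow_near (x := 8 * x) (y := (2 : ℝ)) (by linarith)
    (by norm_num)
  set j := n + 1 with hj
  have hq1 : 8 * x < 2 ^ j := hn2
  have hq2 : (2 : ℝ) ^ j ≤ 16 * x := by
    rw [hj, pow_succ]
    linarith
  have hexp := exp_bound hx1
  have hs0 := Real.sqrt_nonneg x
  have hx2 : 0 < x ^ 2 := by positivity
  set q : ℝ := 2 ^ j with hq
  have hq0 : 0 < q := by positivity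
  have hqx : q ^ 2 ≤ 256 * x ^ 2 := by nlinarith
  unfold bd
  rw [← hx]
  by_cases hdv : 2 ^ j * 2 ^ j ∣ m
  · have h3 := wild hm (by omega) hz hdv a ha h1 h2
    rw [← hD, ← hq, Real.log_mul hq0.ne' (by positivity)] at h3
    have h4 := Real.log_two_gt_d9
    have h5 := log_le_quarter hq0
    have h6 : (1 : ℝ) ≤ 2 * q ^ 2 * (D * ht (a : L)) := by
      have h7 : Real.log D = x - 1 := by rw [hx]; ring
      nlinarith
    have h7 : 1 / (512 * x ^ 2) ≤ D * ht (a : L) := by
      rw [div_le_iff₀ (by positivity)]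
      have h8 : 0 ≤ D * ht (a : L) := mul_nonneg (Nat.cast_nonneg _) (ht_nonneg _)
      nlinarith
    refine le_trans ?_ h7
    have h8 : Real.exp (-(12288 * (C0 + 1) * Real.sqrt x)) ≤ Real.exp (-Real.sqrt x) := by
      apply Real.exp_le_exp.mpr
      nlinarith
    calc Real.exp (-(12288 * (C0 + 1) * Real.sqrt x)) / (12288 * (C0 + 1))
        ≤ (24 / x ^ 2) / 12288 := by
          apply div_le_div₀ (by positivity) (h8.trans hexp) (by norm_num)
          nlinarith
      _ = 1 / (512 * x ^ 2) := by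
          field_simp
          norm_num
  · have h3 := hlow m (2 * j) z a hm hz (by
      intro h
      apply hdv
      rw [two_mul, pow_add] at h
      exact h) ha hroot
    rw [← hD, ← hx] at h3
    refine le_trans ?_ h3
    have h4 : (2 : ℝ) ^ (2 * j) = q ^ 2 := by rw [hq, ← pow_mul, mul_comm]
    rw [h4]
    have h5 : Real.exp (-(12288 * (C0 + 1) * Real.sqrt x)) ≤
        Real.exp (-(C0 * Real.sqrt x)) * (24 / x ^ 2) := by
      calc Real.exp (-(12288 * (C0 + 1) * Real.sqrt x))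
          ≤ Real.exp (-(C0 * Real.sqrt x) + -Real.sqrt x) := by
            apply Real.exp_le_exp.mpr
            nlinarith [mul_nonneg hC0.le hs0]
        _ = Real.exp (-(C0 * Real.sqrt x)) * Real.exp (-Real.sqrt x) := Real.exp_add _ _
        _ ≤ _ := mul_le_mul_of_nonneg_left hexp (Real.exp_pos _).le
    calc Real.exp (-(12288 * (C0 + 1) * Real.sqrt x)) / (12288 * (C0 + 1))
        ≤ (Real.exp (-(C0 * Real.sqrt x)) * (24 / x ^ 2)) / (12288 * (C0 + 1)) := by
          gcongr
      _ = Real.exp (-(C0 * Real.sqrt x)) / (512 * (C0 + 1) * x ^ 2) := by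
          field_simp
          norm_num
      _ ≤ Real.exp (-(C0 * Real.sqrt x)) / (C0 * q ^ 2) := by
          apply div_le_div_of_nonneg_left (Real.exp_pos _).le (by positivity)
          nlinarith [mul_le_mul_of_nonneg_left hqx hC0.le, mul_pos hC0 hx2]

theorem dobL {C0 : ℝ} (hC0 : 0 < C0)
    (hlow : ∀ (m e : ℕ) (z : L) (a : 𝓞 L), m ≠ 0 → IsPrimitiveRoot z m → ¬ (2 ^ e ∣ m) →
      (a : L) ≠ 0 → (∀ k : ℕ, 0 < k → (a : L) ^ k ≠ 1) →
      Real.exp (-(C0 * Real.sqrt (1 + Real.log (orb z (a : L)).card))) / (C0 * 2 ^ e) ≤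
        (orb z (a : L)).card * ht (a : L)) (s : ℕ) :
    ∀ (m : ℕ) (z : L) (a : 𝓞 L), (orb z (a : L)).card + m = s → m ≠ 0 → IsPrimitiveRoot z m →
    (a : L) ≠ 0 → (∀ k : ℕ, 0 < k → (a : L) ^ k ≠ 1) →
    bd (12288 * (C0 + 1)) (orb z (a : L)).card ≤ (orb z (a : L)).card * ht (a : L) := by
  have hC : 0 < 12288 * (C0 + 1) := by positivity
  induction s using Nat.strong_induction_on with
  | _ s ih =>
    intro m z a hs hm hz ha hroot
    by_cases h1 : ∃ g : Gal(L/ℚ), g z = z ∧ g (a : L) = -a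
    · obtain ⟨g, hg, hga⟩ := h1
      have e1 : ((a ^ 2 : 𝓞 L) : L) = (a : L) ^ 2 := map_pow (algebraMap (𝓞 L) L) a 2
      have e2 := sq_card ha hg hga
      have e3 := orb_pos z ((a : L) ^ 2)
      have e4 := ih ((orb z ((a : L) ^ 2)).card + m) (by omega) m z (a ^ 2) (by rw [e1]) hm hz
        (by rw [e1]; exact pow_ne_zero 2 ha) (fun k hk => by
          rw [e1, ← pow_mul]
          exact hroot _ (by positivity))
      rw [e1, ht_pow] at e4
      refine (bd_anti hC e3 (by omega)).trans (e4.trans ?_)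
      have e5 : (2 : ℝ) * (orb z ((a : L) ^ 2)).card ≤ (orb z (a : L)).card := by exact_mod_cast e2
      have e6 := ht_nonneg (a : L)
      push_cast
      nlinarith
    · by_cases h2 : ∃ g : Gal(L/ℚ), g z = -z ∧ (g (a : L) = a ∨ g (a : L) = -a)
      · obtain ⟨g, hg, hga⟩ := h2
        have hev : Even m := by
          by_contra hcon
          rw [Nat.not_even_iff_odd] at hcon
          have e1 : (g z) ^ m = 1 := by rw [← map_pow, hz.pow_eq_one, map_one]
          rw [hg, hcon.neg_pow, hz.pow_eq_one] at e1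
          have e2 : (2 : L) = 0 := by linear_combination -e1
          exact two_ne_zero e2
        obtain ⟨m₁, hm₁⟩ := hev
        have hzi : IsIntegral ℤ z := hz.isIntegral (Nat.pos_of_ne_zero hm)
        have hz0 : z ≠ 0 := hz.ne_zero hm
        obtain ⟨b, hb1, hb2, hb3, hb4, hb5⟩ : ∃ b : 𝓞 L, g (b : L) = b ∧ ht (b : L) = ht (a : L) ∧
            (b : L) ≠ 0 ∧ (∀ k : ℕ, 0 < k → (b : L) ^ k ≠ 1) ∧
            (orb z (b : L)).card ≤ (orb z (a : L)).card := by
          rcases hga with hga | hga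
          · exact ⟨a, hga, rfl, ha, hroot, le_rfl⟩
          · refine ⟨⟨z, hzi⟩ * a, ?_, ?_, ?_, ?_, ?_⟩
            · change g (z * (a : L)) = z * a
              rw [map_mul, hg, hga, neg_mul_neg]
            · exact ht_unity hm hz.pow_eq_one (a : L)
            · exact mul_ne_zero hz0 ha
            · intro k hk hk1
              have e1 : (z * (a : L)) ^ k = 1 := hk1
              apply hroot (k * m) (by positivity)
              have e2 : (z * (a : L)) ^ (k * m) = 1 := by rw [pow_mul, e1, one_pow]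
              rw [mul_pow, mul_comm k m, pow_mul z m k, hz.pow_eq_one, one_pow, one_mul,
                mul_comm m k] at e2
              exact e2
            · exact orb_mul
        have e3 := orb_sq_sub hg hb1
        have e4 := orb_pos (z ^ 2) (b : L)
        have hm1 : m₁ ≠ 0 := by omega
        have e5 := ih ((orb (z ^ 2) (b : L)).card + m₁) (by omega) m₁ (z ^ 2) b rfl hm1
          (hz.pow (Nat.pos_of_ne_zero hm) (by omega)) hb3 hb4
        refine (bd_anti hC e4 (e3.trans hb5)).trans (e5.trans ?_)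
        rw [hb2]
        refine mul_le_mul_of_nonneg_right ?_ (ht_nonneg _)
        exact_mod_cast e3.trans hb5
      · push Not at h1 h2
        exact base hC0 hlow hm hz ha hroot h1 h2

/-- **Lower bound for the height over cyclotomic fields.** -/
theorem dob : ∃ C : ℝ, 0 < C ∧ ∀ (L : Type) [Field L] [NumberField L] [IsGalois ℚ L] (m : ℕ)
    (z : L) (a : 𝓞 L), m ≠ 0 → IsPrimitiveRoot z m → (a : L) ≠ 0 →
    (∀ k : ℕ, 0 < k → (a : L) ^ k ≠ 1) →
    bd C (orb z (a : L)).card ≤ (orb z (a : L)).card * ht (a : L) := by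
  obtain ⟨C0, hC0, h⟩ := low
  exact ⟨12288 * (C0 + 1), by positivity, fun L _ _ _ m z a hm hz ha hroot =>
    dobL hC0 (h L) _ m z a rfl hm hz ha hroot⟩

end

end Pool.Agent.W110.RA
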