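import Pool.Agent.W110.RA.G

/-!
# Galois number fields which split a polynomial
-/

set_option autoImplicit false
set_option linter.unusedSectionVars false

namespace Pool.Agent.W110.RA

open NumberField Module Polynomial

noncomputable section

theorem exists_galois (M : Type) [Field M] [NumberField M] :
    ∃ (L : Type) (_ : Field L) (_ : NumberField L) (_ : IsGalois ℚ L), Nonempty (M →+* L) := by
  let Ω := AlgebraicClosure M
  have h1 : Algebra.IsAlgebraic ℚ Ω := Algebra.IsAlgebraic.trans ℚ M Ω
  have h2 : IsAlgClosure ℚ Ω := ⟨inferInstance, h1⟩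
  have h3 : Normal ℚ Ω := IsAlgClosure.normal ℚ Ω
  let L := IntermediateField.normalClosure ℚ M Ω
  have h4 : Normal ℚ L := normalClosure.normal ℚ M Ω
  have h5 : FiniteDimensional ℚ L := inferInstance
  have h6 : NumberField L := { to_charZero := inferInstance, to_finiteDimensional := h5 }
  have h7 : IsGalois ℚ L := IsGalois.mk
  refine ⟨L, inferInstance, h6, h7, ⟨?_⟩⟩
  exact algebraMap M L

theorem exists_split (E : Type) [Field E] [NumberField E] (p : E[X]) :
    ∃ (L : Type) (_ : Field L) (_ : NumberField L) (_ : IsGalois ℚ L) (_ : Algebra E L),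
      (p.map (algebraMap E L)).Splits := by
  have h1 : NumberField p.SplittingField := NumberField.of_module_finite E p.SplittingField
  obtain ⟨L, i1, i2, i3, ⟨f⟩⟩ := exists_galois p.SplittingField
  let i4 : Algebra E L := (f.comp (algebraMap E p.SplittingField)).toAlgebra
  refine ⟨L, i1, i2, i3, i4, ?_⟩
  have h2 := (SplittingField.splits p).map f
  rw [Polynomial.map_map] at h2
  exact h2

end

end Pool.Agent.W110.RA
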