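import Pool.Agent.W110.RA.H
import Pool.Agent.W242.IM.NF
import Pool.Agent.W242.IM.Min
import Pool.Agent.W110.PG.C

/-!
# Mahler measures of Hermitian matrices over number fields as sums of heights
-/

set_option autoImplicit false
set_option linter.unusedSectionVars false

namespace Pool.Agent.W110.RA

open NumberField Module Polynomial Matrix
open Pool.Agent.W242.IM

noncomputable section

/-- the polynomial `det ((X ^ 2 + 1) I - X A) = X ^ n χ_A (X + 1 / X)` -/
def zp {R : Type*} [CommRing R] {κ : Type*} [Fintype κ] [DecidableEq κ] (A : Matrix κ κ R) : R[X] :=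
  (Matrix.scalar κ (X ^ 2 + 1 : R[X]) - (X : R[X]) • A.map C).det

theorem zp_map {R S : Type*} [CommRing R] [CommRing S] {κ : Type*} [Fintype κ] [DecidableEq κ]
    (f : R →+* S) (A : Matrix κ κ R) : (zp A).map f = zp (A.map f) := by
  unfold zp
  have h1 := (mapRingHom f).map_det (Matrix.scalar κ (X ^ 2 + 1 : R[X]) - (X : R[X]) • A.map C)
  rw [coe_mapRingHom] at h1
  rw [h1]
  congr 1
  ext i j
  by_cases h : i = j
  · subst h
    simp
  · simp [h]

theorem zp_eval {κ : Type*} [Fintype κ] [DecidableEq κ] (A : Matrix κ κ ℂ) {w : ℂ} (hw : w ≠ 0) :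
    (zp A).eval w = w ^ Fintype.card κ * A.charpoly.eval (w + w⁻¹) := by
  unfold zp
  rw [← coe_evalRingHom, RingHom.map_det, Matrix.eval_charpoly, ← Matrix.det_smul]
  congr 1
  ext i j
  by_cases h : i = j
  · subst h
    simp
    field_simp
  · simp [h]
    ring

theorem zp_hermitian {κ : Type*} [Fintype κ] [DecidableEq κ] {A : Matrix κ κ ℂ}
    (hA : A.IsHermitian) : zp A = ∏ j, quad (hA.eigenvalues j) := by
  have h1 : ∀ w : ℂ, w ≠ 0 → (zp A).eval w = (∏ j, quad (hA.eigenvalues j)).eval w := by
    intro w hw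
    rw [zp_eval A hw, eval_prod, hA.charpoly_eq, eval_prod, ← Finset.card_univ,
      ← Finset.prod_const, ← Finset.prod_mul_distrib]
    refine Finset.prod_congr rfl fun j _ => ?_
    unfold quad
    simp
    field_simp
    ring
  apply Polynomial.eq_of_infinite_eval_eq
  refine Set.Infinite.mono (s := {w : ℂ | w ≠ 0}) (fun w hw => h1 w hw) ?_
  have h2 : ({w : ℂ | w ≠ 0}) = ({0} : Set ℂ)ᶜ := by
    ext w
    simp
  rw [h2]
  exact (Set.finite_singleton (0 : ℂ)).infinite_compl

theorem quad_facts (l : ℝ) : (quad l).Monic ∧ (quad l).natDegree = 2 := by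
  have h1 : quad l = X ^ 2 + C (-(l : ℂ)) * X + C 1 := by
    unfold quad
    simp
    ring
  rw [h1]
  constructor
  · monicity!
  · compute_degree!

theorem zp_facts {κ : Type*} [Fintype κ] [DecidableEq κ] {A : Matrix κ κ ℂ}
    (hA : A.IsHermitian) : (zp A).Monic ∧ (zp A).natDegree = 2 * Fintype.card κ := by
  rw [zp_hermitian hA]
  refine ⟨monic_prod_of_monic _ _ fun j _ => (quad_facts _).1, ?_⟩
  rw [natDegree_prod_of_monic _ _ fun j _ => (quad_facts _).1,
    Finset.sum_congr rfl fun j _ => (quad_facts _).2]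
  simp [mul_comm]

theorem zp_mahler {κ : Type*} [Fintype κ] [DecidableEq κ] {A : Matrix κ κ ℂ}
    (hA : A.IsHermitian) : (zp A).logMahlerMeasure = mp A.charpoly := by
  rw [(mp_charpoly hA).2, zp_hermitian hA]
  have h1 : ∀ s : Finset κ, (∏ j ∈ s, quad (hA.eigenvalues j)).logMahlerMeasure =
      ∑ j ∈ s, phi (hA.eigenvalues j) := by
    intro s
    classical
    induction s using Finset.induction_on with
    | empty => simp
    | insert a s ha ih =>
      rw [Finset.prod_insert ha, Finset.sum_insert ha,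
        logMahlerMeasure_mul_eq_add_logMahlerMeasure
          (mul_ne_zero (quad_ne _) (Finset.prod_ne_zero_iff.mpr fun j _ => quad_ne _)),
        logMahler_quad, ih]
  exact h1 Finset.univ

/-! ### Sums over the embeddings -/

variable {E : Type} [Field E] [NumberField E] {n : ℕ}

/-- the sum of the logarithmic Mahler measures of the conjugates -/
def LL (H : Matrix (Fin n) (Fin n) (𝓞 E)) (U : Finset (Fin n)) : ℝ :=
  ∑ σ : E →+* ℂ, mp (cp (H.map (emb σ)) U)

/-- the polynomial of a principal submatrix -/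
def zU (H : Matrix (Fin n) (Fin n) (𝓞 E)) (U : Finset (Fin n)) : (𝓞 E)[X] :=
  zp (H.submatrix (Subtype.val : U → Fin n) (Subtype.val : U → Fin n))

theorem zU_map (H : Matrix (Fin n) (Fin n) (𝓞 E)) (U : Finset (Fin n)) (σ : E →+* ℂ) :
    (zU H U).map (emb σ) = zp (sm (H.map (emb σ)) U) := by
  unfold zU
  rw [zp_map]
  rfl

theorem emb_inj (σ : E →+* ℂ) : Function.Injective (emb σ) :=
  σ.injective.comp RingOfIntegers.coe_injective

variable {H : Matrix (Fin n) (Fin n) (𝓞 E)}

theorem zU_facts (hH : ∀ σ : E →+* ℂ, (H.map (emb σ)).IsHermitian) (U : Finset (Fin n)) :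
    (zU H U).Monic ∧ (zU H U).natDegree = 2 * U.card := by
  obtain ⟨σ⟩ : Nonempty (E →+* ℂ) := inferInstance
  have h1 := zp_facts (sm_hermitian (hH σ) U)
  rw [← zU_map] at h1
  constructor
  · exact Polynomial.monic_of_injective (emb_inj σ) h1.1
  · rw [← natDegree_map_eq_of_injective (emb_inj σ), h1.2, Fintype.card_coe]

variable {L : Type} [Field L] [NumberField L] [Algebra E L]

/-- the zeros in a field which splits the polynomial -/
def zr (H : Matrix (Fin n) (Fin n) (𝓞 E)) (U : Finset (Fin n)) (L : Type) [Field L]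
    [NumberField L] [Algebra E L] : Multiset L :=
  ((zU H U).map ((algebraMap E L).comp (algebraMap (𝓞 E) E))).roots

theorem LL_eq (hH : ∀ σ : E →+* ℂ, (H.map (emb σ)).IsHermitian) (U : Finset (Fin n))
    (hs : ((zU H U).map ((algebraMap E L).comp (algebraMap (𝓞 E) E))).Splits) :
    LL H U = finrank ℚ E * ((zr H U L).map ht).sum := by
  set P := (zU H U).map ((algebraMap E L).comp (algebraMap (𝓞 E) E)) with hP
  have hmon : P.Monic := (zU_facts hH U).1.map _
  have hprod : P = ((zr H U L).map fun y => X - C y).prod := by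
    have h1 := hs.eq_prod_roots
    rw [hmon.leadingCoeff, C_1, one_mul] at h1
    exact h1
  have hτ : ∀ τ : L →+* ℂ, mp (cp (H.map (emb (τ.comp (algebraMap E L)))) U) =
      ((zr H U L).map fun y => Real.posLog ‖τ y‖).sum := by
    intro τ
    have h1 : (zU H U).map (emb (τ.comp (algebraMap E L))) = P.map τ := by
      rw [hP, Polynomial.map_map]
      rfl
    have h2 := zp_mahler (sm_hermitian (hH (τ.comp (algebraMap E L))) U)
    rw [← zU_map, h1, logMahlerMeasure_eq_log_leadingCoeff_add_sum_log_roots,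
      (hmon.map τ).leadingCoeff, norm_one, Real.log_one, zero_add] at h2
    have h3 : (P.map τ).roots = (zr H U L).map τ := by
      have h4 := hs.roots_map τ
      exact h4
    rw [h3, Multiset.map_map] at h2
    exact h2.symm
  have h5 := sum_embeddings (K := E) (L := L) (fun σ => mp (cp (H.map (emb σ)) U))
  rw [Finset.sum_congr rfl (fun τ _ => hτ τ)] at h5
  have h6 : ∑ τ : L →+* ℂ, ((zr H U L).map fun y => Real.posLog ‖τ y‖).sum =
      finrank ℚ L * ((zr H U L).map ht).sum := by
    rw [← Multiset.sum_map_mul_left]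
    have h7 : ∀ s : Multiset L, ∑ τ : L →+* ℂ, (s.map fun y => Real.posLog ‖τ y‖).sum =
        (s.map fun y => (finrank ℚ L : ℝ) * ht y).sum := by
      intro s
      induction s using Multiset.induction_on with
      | empty => simp
      | cons a s ih =>
        simp only [Multiset.map_cons, Multiset.sum_cons, Finset.sum_add_distrib]
        rw [ih, ht_sum]
    exact h7 _
  rw [h6] at h5
  have h8 : (finrank E L : ℝ) ≠ 0 := by exact_mod_cast (finrank_pos : 0 < finrank E L).ne'
  have h9 : (finrank ℚ L : ℝ) = finrank ℚ E * finrank E L := by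
    exact_mod_cast (finrank_mul_finrank ℚ E L).symm
  rw [h9] at h5
  have h10 : (finrank E L : ℝ) * LL H U =
      finrank E L * (finrank ℚ E * ((zr H U L).map ht).sum) := by
    unfold LL
    rw [← h5]
    ring
  exact mul_left_cancel₀ h8 h10

end

end Pool.Agent.W110.RA
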