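import Pool.Agent.W110.RA.I

/-!
# The relative Lehmer bound for Hermitian matrices over cyclotomic fields
-/

set_option autoImplicit false
set_option linter.unusedSectionVars false

namespace Pool.Agent.W110.RA

open NumberField Module Polynomial Matrix Filter
open Pool.Agent.W242.IM

noncomputable section

theorem fix_cyc {m : ℕ} (hm : m ≠ 0) {E L : Type} [Field E] [NumberField E]
    [hcyc : IsCyclotomicExtension {m} ℚ E] [Field L] [NumberField L] [Algebra E L] {ζ : E}
    (hζ : IsPrimitiveRoot ζ m) {g : Gal(L/ℚ)} (hg : g (algebraMap E L ζ) = algebraMap E L ζ)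
    (x : E) : g (algebraMap E L x) = algebraMap E L x := by
  have : NeZero m := ⟨hm⟩
  let φ₁ : E →ₐ[ℚ] L := RingHom.toRatAlgHom ((g : L →+* L).comp (algebraMap E L))
  let φ₂ : E →ₐ[ℚ] L := RingHom.toRatAlgHom (algebraMap E L)
  have h1 : φ₁ = φ₂ := by
    refine PowerBasis.algHom_ext (IsPrimitiveRoot.powerBasis ℚ hζ) ?_
    rw [IsPrimitiveRoot.powerBasis_gen]
    exact hg
  exact congrArg (fun φ : E →ₐ[ℚ] L => φ x) h1

theorem ht_zero_of_unity {L : Type} [Field L] [NumberField L] {x : L} {k : ℕ} (hk : k ≠ 0)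
    (h : x ^ k = 1) : ht x = 0 := by
  have h1 := ht_unity hk h (1 : L)
  rw [mul_one] at h1
  rw [h1]
  unfold ht
  simp

theorem ht_zero {L : Type} [Field L] [NumberField L] : ht (0 : L) = 0 := by
  unfold ht
  simp

theorem sum_le_of_subset {L : Type} [Field L] [DecidableEq L] (R : Multiset L) (S : Finset L)
    (hS : S ⊆ R.toFinset) (f : L → ℝ) (hf : ∀ x, 0 ≤ f x) : ∑ x ∈ S, f x ≤ (R.map f).sum := by
  rw [Finset.sum_multiset_map_count]
  refine (Finset.sum_le_sum_of_subset_of_nonneg hS fun x _ _ => hf x).trans ?_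
  refine Finset.sum_le_sum fun x hx => ?_
  have h1 : 1 ≤ R.count x := Multiset.one_le_count_iff_mem.mpr (Multiset.mem_toFinset.mp hx)
  rw [nsmul_eq_mul]
  have h2 : (1 : ℝ) ≤ R.count x := by exact_mod_cast h1
  nlinarith [hf x]

theorem lower : ∃ C : ℝ, 0 < C ∧ ∀ (m : ℕ) (E : Type) [Field E] [NumberField E]
    [IsCyclotomicExtension {m} ℚ E] (n : ℕ) (H : Matrix (Fin n) (Fin n) (𝓞 E)), m ≠ 0 →
    (∀ σ : E →+* ℂ, (H.map (emb σ)).IsHermitian) → ∀ U : Finset (Fin n), LL H U ≠ 0 →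
    finrank ℚ E * bd C (2 * U.card) ≤ LL H U := by
  classical
  obtain ⟨C, hC, hdob⟩ := dob
  refine ⟨C, hC, ?_⟩
  intro m E _ _ _ n H hm hH U hU
  have hNZ : NeZero m := ⟨hm⟩
  obtain ⟨L, _, _, _, _, hs⟩ := exists_split E ((zU H U).map (algebraMap (𝓞 E) E))
  rw [Polynomial.map_map] at hs
  have hLL := LL_eq hH U hs
  set P := (zU H U).map ((algebraMap E L).comp (algebraMap (𝓞 E) E)) with hP
  have hmon : P.Monic := (zU_facts hH U).1.map _
  have hdeg : P.natDegree = 2 * U.card := by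
    rw [hP, (zU_facts hH U).1.natDegree_map, (zU_facts hH U).2]
  have hR : zr H U L = P.roots := rfl
  obtain ⟨y, hy, hy0⟩ : ∃ y ∈ zr H U L, ht y ≠ 0 := by
    by_contra hcon
    push Not at hcon
    apply hU
    rw [hLL]
    have h1 : ((zr H U L).map ht).sum = 0 := by
      apply Multiset.sum_eq_zero
      intro x hx
      obtain ⟨y, hy, rfl⟩ := Multiset.mem_map.mp hx
      exact hcon y hy
    rw [h1, mul_zero]
  have hyP : P.eval y = 0 := (mem_roots hmon.ne_zero).mp (hR ▸ hy)
  have hyE : IsIntegral (𝓞 E) y := by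
    refine ⟨zU H U, (zU_facts hH U).1, ?_⟩
    rw [hP, eval_map] at hyP
    exact hyP
  have hyi : IsIntegral ℤ y := isIntegral_trans (R := ℤ) (A := 𝓞 E) y hyE
  have hyne : y ≠ 0 := by
    rintro rfl
    exact hy0 ht_zero
  have hyroot : ∀ k : ℕ, 0 < k → y ^ k ≠ 1 := fun k hk h => hy0 (ht_zero_of_unity hk.ne' h)
  set ζ := IsCyclotomicExtension.zeta m ℚ E with hζdef
  have hζ : IsPrimitiveRoot ζ m := IsCyclotomicExtension.zeta_spec m ℚ E
  set z := algebraMap E L ζ with hzdef
  have hz : IsPrimitiveRoot z m := hζ.map_of_injective (algebraMap E L).injective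
  have hb := hdob L m z ⟨y, hyi⟩ hm hz hyne hyroot
  change bd C (orb z y).card ≤ (orb z y).card * ht y at hb
  have hsub : orb z y ⊆ (zr H U L).toFinset := by
    intro w hw
    obtain ⟨g, hg, rfl⟩ := mem_orb.mp hw
    rw [Multiset.mem_toFinset, hR, mem_roots hmon.ne_zero, IsRoot.def]
    have h1 : P.map (g : L →+* L) = P := by
      rw [hP, Polynomial.map_map]
      congr 1
      ext x
      exact fix_cyc hm hζ hg (algebraMap (𝓞 E) E x)
    have h2 : (P.map (g : L →+* L)).eval (g y) = g (P.eval y) := by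
      rw [eval_map]
      exact (Polynomial.hom_eval₂ P (RingHom.id L) (g : L →+* L) y).symm
    rw [h1, hyP, map_zero] at h2
    exact h2
  have hD : (orb z y).card ≤ 2 * U.card := by
    calc (orb z y).card ≤ (zr H U L).toFinset.card := Finset.card_le_card hsub
      _ ≤ Multiset.card (zr H U L) := Multiset.toFinset_card_le _
      _ ≤ P.natDegree := by rw [hR]; exact card_roots' P
      _ = 2 * U.card := hdeg
  have h1 : ((orb z y).card : ℝ) * ht y ≤ ((zr H U L).map ht).sum := by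
    have h2 := sum_le_of_subset (zr H U L) (orb z y) hsub ht ht_nonneg
    have h3 : ∑ x ∈ orb z y, ht x = (orb z y).card * ht y := by
      rw [Finset.sum_congr rfl (g := fun _ => ht y), Finset.sum_const, nsmul_eq_mul]
      intro x hx
      obtain ⟨g, -, rfl⟩ := mem_orb.mp hx
      exact ht_conj g y
    rw [h3] at h2
    exact h2
  rw [hLL]
  refine mul_le_mul_of_nonneg_left ?_ (Nat.cast_nonneg _)
  exact ((bd_anti hC (orb_pos z y) hD).trans hb).trans h1

theorem phi_small {e : ℝ} (he0 : 0 ≤ e) (he1 : e ≤ 1) : phi (2 + e) ≤ 2 * Real.sqrt e := by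
  unfold phi
  have hs := Real.sqrt_nonneg e
  have hs2 : Real.sqrt e ^ 2 = e := Real.sq_sqrt he0
  have hs1 : Real.sqrt e ≤ 1 := by
    rw [Real.sqrt_le_one]
    exact he1
  have hb : big (2 + e) ≤ 1 + 2 * Real.sqrt e := by
    unfold big
    rw [abs_of_nonneg (by linarith)]
    have h1 : Real.sqrt ((2 + e) ^ 2 - 4) ≤ 3 * Real.sqrt e := by
      rw [show (3 : ℝ) * Real.sqrt e = Real.sqrt ((3 * Real.sqrt e) ^ 2) by
        rw [Real.sqrt_sq (by positivity)]]
      apply Real.sqrt_le_sqrt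
      nlinarith
    nlinarith
  have h2 : 0 ≤ big (2 + e) := big_nonneg _
  rw [Real.posLog_eq_log_max_one h2]
  have h3 : max 1 (big (2 + e)) ≤ 1 + 2 * Real.sqrt e := max_le (by linarith) hb
  refine (Real.log_le_log (lt_of_lt_of_le one_pos (le_max_left _ _)) h3).trans ?_
  have h4 := Real.log_le_sub_one_of_pos (x := 1 + 2 * Real.sqrt e) (by positivity)
  linarith

theorem size {C : ℝ} (hC : 0 < C) : ∃ N : ℕ, 6 ≤ N ∧ ∀ n : ℕ, N ≤ n →
    2 * phi (2 + 4 / ((n : ℝ) - 2)) < bd C (2 * n) := by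
  set K := |Real.log (12 * C)| + 3 with hK
  have hK3 : 3 ≤ K := by
    have := abs_nonneg (Real.log (12 * C))
    linarith
  have h1 : Tendsto (fun n : ℕ => Real.log (((2 * n : ℕ) : ℝ))) atTop atTop := by
    refine Real.tendsto_log_atTop.comp ?_
    refine tendsto_natCast_atTop_atTop.comp ?_
    exact Filter.tendsto_id.const_mul_atTop' (by norm_num)
  have h2 := h1.eventually (eventually_ge_atTop ((2 * C + 2 * K) ^ 2))
  obtain ⟨N, hN⟩ := eventually_atTop.mp h2
  refine ⟨max N 6, le_max_right _ _, fun n hn => ?_⟩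
  have hn6 : 6 ≤ n := (le_max_right _ _).trans hn
  have hnR : (6 : ℝ) ≤ n := by exact_mod_cast hn6
  have h3 := hN n ((le_max_left _ _).trans hn)
  set e := 4 / ((n : ℝ) - 2) with he
  have he0 : 0 < e := by
    rw [he]
    apply div_pos (by norm_num)
    linarith
  have he1 : e ≤ 1 := by
    rw [he, div_le_one (by linarith)]
    linarith
  have he2 : e ≤ 8 / n := by
    rw [he, div_le_div_iff₀ (by linarith) (by linarith)]
    linarith
  have h4 := phi_small he0.le he1
  set y := Real.sqrt (1 + Real.log ((2 * n : ℕ) : ℝ)) with hy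
  have hlog0 : 0 ≤ Real.log ((2 * n : ℕ) : ℝ) := by
    apply Real.log_nonneg
    push_cast
    linarith
  have hy2 : y ^ 2 = 1 + Real.log ((2 * n : ℕ) : ℝ) := Real.sq_sqrt (by linarith)
  have hy0 : 0 ≤ y := Real.sqrt_nonneg _
  have hyK : 2 * C + 2 * K ≤ y := by
    rw [hy]
    apply Real.le_sqrt_of_sq_le
    linarith
  have hlogn : Real.log ((2 * n : ℕ) : ℝ) = Real.log 2 + Real.log n := by
    push_cast
    rw [Real.log_mul (by norm_num) (by linarith)]
  have hl2 := Real.log_two_lt_d9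
  have hsq : Real.sqrt e < 3 * Real.exp (-(Real.log n / 2)) := by
    have h5 : (3 * Real.exp (-(Real.log n / 2))) ^ 2 = 9 / n := by
      rw [mul_pow, ← Real.exp_nat_mul]
      have : ((2 : ℕ) : ℝ) * (-(Real.log n / 2)) = -Real.log n := by push_cast; ring
      rw [this, Real.exp_neg, Real.exp_log (by linarith)]
      ring
    rw [Real.sqrt_lt' (by positivity), h5]
    refine lt_of_le_of_lt he2 ?_
    apply div_lt_div_of_pos_right (by norm_num) (by linarith)
  unfold bd
  rw [← hy]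
  have h6 : 12 * Real.exp (-(Real.log n / 2)) ≤ Real.exp (-(C * y)) / C := by
    rw [le_div_iff₀ hC]
    have h7 : 12 * Real.exp (-(Real.log n / 2)) * C =
        Real.exp (Real.log (12 * C) + -(Real.log n / 2)) := by
      rw [Real.exp_add, Real.exp_log (by positivity)]
      ring
    rw [h7]
    apply Real.exp_le_exp.mpr
    have h8 : Real.log (12 * C) ≤ K - 3 := by
      rw [hK]
      have := le_abs_self (Real.log (12 * C))
      linarith
    have h9 : Real.log n = y ^ 2 - 1 - Real.log 2 := by linarith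
    rw [h9]
    have h10 : (C + K) * y ≤ y ^ 2 / 2 := by nlinarith
    have h11 : K ≤ K * y := by
      have : 1 ≤ y := by nlinarith
      nlinarith
    nlinarith
  calc 2 * phi (2 + e) ≤ 4 * Real.sqrt e := by linarith
    _ < 12 * Real.exp (-(Real.log n / 2)) := by linarith
    _ ≤ _ := h6

section structural

variable {E : Type} [Field E] [NumberField E] {n : ℕ} {H : Matrix (Fin n) (Fin n) (𝓞 E)}

theorem LL_mono (hH : ∀ σ : E →+* ℂ, (H.map (emb σ)).IsHermitian) {W U : Finset (Fin n)}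
    (h : W ⊆ U) : LL H W ≤ LL H U :=
  Finset.sum_le_sum fun σ _ => mp_mono (hH σ) h

theorem LL_empty : LL H ∅ = 0 := by
  unfold LL
  apply Finset.sum_eq_zero
  intro σ _
  unfold cp mp
  have : (sm (H.map (emb σ)) ∅).charpoly = 1 := by
    unfold Matrix.charpoly
    exact Matrix.det_isEmpty
  rw [this]
  simp

theorem LL_zero (hH : ∀ σ : E →+* ℂ, (H.map (emb σ)).IsHermitian) {U : Finset (Fin n)}
    (h : LL H U = 0) (σ : E →+* ℂ) : mp (cp (H.map (emb σ)) U) = 0 := by
  unfold LL at h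
  rw [Finset.sum_eq_zero_iff_of_nonneg fun σ _ => cp_nonneg (hH σ) U] at h
  exact h σ (Finset.mem_univ _)

theorem LL_minimal (U : Finset (Fin n)) (hU : LL H U ≠ 0) :
    ∃ V ⊆ U, LL H V ≠ 0 ∧ ∀ v ∈ V, LL H (V.erase v) = 0 := by
  induction U using Finset.strongInduction with
  | H U ih =>
    by_cases h : ∀ v ∈ U, LL H (U.erase v) = 0
    · exact ⟨U, Finset.Subset.refl _, hU, h⟩
    · push Not at h
      obtain ⟨v, hv, hne⟩ := h
      obtain ⟨V, hV, h1, h2⟩ := ih (U.erase v) (Finset.erase_ssubset hv) hne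
      exact ⟨V, hV.trans (Finset.erase_subset _ _), h1, h2⟩

theorem LL_upper (hH : ∀ σ : E →+* ℂ, (H.map (emb σ)).IsHermitian) {V : Finset (Fin n)}
    (h3 : 3 ≤ V.card) (h : ∀ v ∈ V, LL H (V.erase v) = 0) :
    LL H V ≤ finrank ℚ E * (2 * phi (2 + 4 / ((V.card : ℝ) - 2))) := by
  unfold LL
  have h4 : ∀ σ : E →+* ℂ, mp (cp (H.map (emb σ)) V) ≤ 2 * phi (2 + 4 / ((V.card : ℝ) - 2)) := by
    intro σ
    have h5 := mp_le_of_del_cyc (sm_hermitian (hH σ) V) (by rw [Fintype.card_coe]; omega)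
      (fun w => by
        have h5 : w = ⟨w.1, w.2⟩ := rfl
        rw [h5, cp_erase (H.map (emb σ)) V w.1 w.2]
        exact LL_zero hH (h w.1 w.2) σ)
    rw [Fintype.card_coe] at h5
    exact h5
  refine (Finset.sum_le_sum fun σ _ => h4 σ).trans ?_
  rw [Finset.sum_const, Finset.card_univ, NumberField.Embeddings.card E ℂ, nsmul_eq_mul]

end structural

/-- **Relative Lehmer bound for Hermitian matrices over cyclotomic fields.** -/
theorem main : ∃ (c : ℝ) (N : ℕ), 0 < c ∧ ∀ (m : ℕ) (E : Type) [Field E] [NumberField E]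
    [IsCyclotomicExtension {m} ℚ E] (n : ℕ) (H : Matrix (Fin n) (Fin n) (𝓞 E)), m ≠ 0 →
    (∀ σ : E →+* ℂ, (H.map (emb σ)).IsHermitian) → ∀ U : Finset (Fin n), LL H U ≠ 0 →
    ∃ V ⊆ U, V.card ≤ N ∧ c * finrank ℚ E ≤ LL H V ∧ LL H V ≤ LL H U := by
  obtain ⟨C, hC, hlow⟩ := lower
  obtain ⟨N, hN6, hN⟩ := size hC
  refine ⟨bd C (2 * N), N, by unfold bd; positivity, ?_⟩
  intro m E _ _ _ n H hm hH U hU
  obtain ⟨V, hVU, h1, h2⟩ := LL_minimal U hU
  have h3 := hlow m E n H hm hH V h1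
  have hn : (0 : ℝ) < finrank ℚ E := by exact_mod_cast (finrank_pos : 0 < finrank ℚ E)
  have hVN : V.card ≤ N := by
    by_contra hcon
    push Not at hcon
    have h4 := LL_upper hH (by omega) h2
    have h5 := hN V.card hcon.le
    have h6 := mul_lt_mul_of_pos_left h5 hn
    linarith
  have hV0 : 0 < V.card := by
    rw [Finset.card_pos, Finset.nonempty_iff_ne_empty]
    rintro rfl
    exact h1 LL_empty
  refine ⟨V, hVU, hVN, ?_, LL_mono hH hVU⟩
  rw [mul_comm]
  refine le_trans ?_ h3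
  exact mul_le_mul_of_nonneg_left (bd_anti hC (by omega) (by omega)) hn.le

end

end Pool.Agent.W110.RA
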